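import Pool.Agent.Y195.HF.Pos

/-!
# Weights and rotations
-/

set_option autoImplicit false

namespace Pool.Agent.Helper147.HM

open Pool.Agent.Y195.HF Finset

variable {m : ℕ}

/-- the top degree functional on the centre -/
noncomputable def EL (m : ℕ) : Zc (I2 m → ℂ) →ₗ[ℂ] ℂ :=
  (LF m) ∘ₗ (zval (M := I2 m → ℂ)).toLinearMap

theorem EL_apply (Y : Zc (I2 m → ℂ)) : EL m Y = LF m (zval Y) := rfl

/-- weight of an element under the torus -/
def Wt (k l : ℕ) (Y : Zc (I2 m → ℂ)) : Prop :=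
  ExteriorAlgebra.map (act m 2 0 0 (1 / 2)) (zval Y) = zval (((4 : ℂ) ^ k * (1 / 4) ^ l) • Y)

theorem Wt.mul {k l k' l' : ℕ} {Y Y' : Zc (I2 m → ℂ)} (h : Wt k l Y) (h' : Wt k' l' Y') :
    Wt (k + k') (l + l') (Y * Y') := by
  unfold Wt at *
  rw [map_mul, map_mul, h, h', ← map_mul, smul_mul_smul_comm]
  congr 2
  ring

theorem Wt.one : Wt 0 0 (1 : Zc (I2 m → ℂ)) := by
  unfold Wt
  simp

theorem Wt.pow {k l : ℕ} {Y : Zc (I2 m → ℂ)} (h : Wt k l Y) (n : ℕ) :
    Wt (n * k) (n * l) (Y ^ n) := by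
  induction n with
  | zero => simpa using Wt.one
  | succ n ih =>
    have h1 := ih.mul h
    rw [← pow_succ] at h1
    have e1 : (n + 1) * k = n * k + k := by ring
    have e2 : (n + 1) * l = n * l + l := by ring
    rw [e1, e2]
    exact h1

theorem Wt.inv {T : Zc (I2 m → ℂ)} (h : Inv T) : Wt 0 0 T := by
  unfold Wt
  rw [h 2 0 0 (1 / 2) (by norm_num)]
  simp

theorem Wt.ff0 {A : Mt m} (hA : ∀ i j, A j i = - A i j) : Wt 1 0 (ff false false A) := by
  unfold Wt
  rw [map_pp _ _ _ _ hA]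
  congr 1
  norm_num

theorem Wt.ff1 {A : Mt m} (hA : ∀ i j, A j i = - A i j) : Wt 0 1 (ff true true A) := by
  unfold Wt
  rw [map_cc _ _ _ _ hA]
  congr 1
  norm_num

theorem Wt.zero {k l : ℕ} {Y : Zc (I2 m → ℂ)} (h : Wt k l Y) (hkl : k ≠ l) : EL m Y = 0 := by
  have h1 : (2 : ℂ) * (1 / 2) - 0 * 0 = 1 := by norm_num
  have h2 := LF_act (m := m) h1 (zval Y)
  unfold Wt at h
  rw [h, map_smul, map_smul, smul_eq_mul] at h2
  have h4 : (4 : ℂ) ^ k * (1 / 4) ^ l ≠ 1 := by
    intro h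
    apply hkl
    have h5 : (4 : ℂ) ^ k = 4 ^ l := by
      have h6 : (4 : ℂ) ^ l ≠ 0 := pow_ne_zero _ (by norm_num)
      rw [one_div, inv_pow] at h
      field_simp at h
      exact h
    have h7 : (4 : ℕ) ^ k = 4 ^ l := by exact_mod_cast h5
    exact Nat.pow_right_injective (le_refl 2 |>.trans (by norm_num)) h7
  rw [EL_apply]
  have h5 : ((4 : ℂ) ^ k * (1 / 4) ^ l - 1) * LF m (zval Y) = 0 := by
    rw [sub_mul, h2, one_mul, sub_self]
  exact (mul_eq_zero.mp h5).resolve_left (sub_ne_zero.mpr h4)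

/-- expansion of a power of a sum of two elements of opposite weights -/
theorem EL_expand {x y U : Zc (I2 m → ℂ)} (hx : Wt 1 0 x) (hy : Wt 0 1 y) {i j : ℕ}
    (hU : Wt i j U) (n k : ℕ) (hk : k ≤ n) (h : k + i = n - k + j) :
    EL m ((x + y) ^ n * U) = (n.choose k : ℂ) * EL m (x ^ k * y ^ (n - k) * U) := by
  have h1 : (x + y) ^ n * U = ∑ p ∈ Finset.range (n + 1), (n.choose p : ℂ) •
      (x ^ p * y ^ (n - p) * U) := by
    rw [add_pow, Finset.sum_mul]
    refine Finset.sum_congr rfl fun p _ => ?_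
    simp only [Algebra.smul_def, map_natCast]
    ring
  rw [h1, map_sum]
  simp only [map_smul, smul_eq_mul]
  rw [Finset.sum_eq_single k]
  · intro p hp hpk
    rw [Finset.mem_range] at hp
    have h2 := ((hx.pow p).mul (hy.pow (n - p))).mul hU
    rw [h2.zero (by omega), mul_zero]
  · intro hn
    exact absurd (Finset.mem_range.mpr (by omega)) hn

theorem vv1 (A : Mt m) : vv 1 0 0 A = (1 / 2 : ℂ) • (ff false false A + ff true true A) := by
  simp only [vv, uu, smul_add]
  norm_num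

theorem vv2 (A : Mt m) : vv 0 1 0 A = (Complex.I / 2) • (ff false false A - ff true true A) := by
  have e1 : (((0 : ℝ) : ℂ) + Complex.I * ((1 : ℝ) : ℂ)) / 2 = Complex.I / 2 := by
    push_cast; ring
  have e2 : (((0 : ℝ) : ℂ) - Complex.I * ((1 : ℝ) : ℂ)) / 2 = -(Complex.I / 2) := by
    push_cast; ring
  rw [vv, uu, e1, e2]
  simp only [Complex.ofReal_zero, mul_zero, zero_smul, add_zero, smul_sub, neg_smul]
  abel

/-- rotation about the first axis -/
theorem EL_rot {T : Zc (I2 m → ℂ)} (hT : Inv T) {μ B : Mt m} (hμ : ∀ i j, μ j i = - μ i j)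
    (hB : ∀ i j, B j i = - B i j) (n : ℕ) :
    EL m (vv 1 0 0 B ^ n * (T * vv 0 1 0 μ ^ 2)) = EL m (vv 1 0 0 B ^ n * (T * vv 0 0 1 μ ^ 2)) := by
  have hs : (Real.sqrt (1 / 2)) ^ 2 = 1 / 2 := Real.sq_sqrt (by norm_num)
  have hg : (Real.sqrt (1 / 2)) ^ 2 + (Real.sqrt (1 / 2)) ^ 2 = 1 := by rw [hs]; norm_num
  have h1 := rot23 hB hg 1 0 0
  have h2 := rot23 hμ hg 0 1 0
  rw [EL_apply, EL_apply, ← LF_act h1.1 (zval (vv 1 0 0 B ^ n * (T * vv 0 1 0 μ ^ 2)))]
  congr 1
  simp only [map_mul, map_pow, h1.2, h2.2, hT _ _ _ _ h1.1]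
  have e1 : (Real.sqrt (1 / 2) ^ 2 - Real.sqrt (1 / 2) ^ 2) * 1 -
      2 * Real.sqrt (1 / 2) * Real.sqrt (1 / 2) * 0 = 0 := by ring
  have e2 : 2 * Real.sqrt (1 / 2) * Real.sqrt (1 / 2) * 1 +
      (Real.sqrt (1 / 2) ^ 2 - Real.sqrt (1 / 2) ^ 2) * 0 = 1 := by
    have : Real.sqrt (1 / 2) * Real.sqrt (1 / 2) = 1 / 2 := by rw [← sq, hs]
    linear_combination 2 * this
  have e3 : (Real.sqrt (1 / 2) ^ 2 - Real.sqrt (1 / 2) ^ 2) * 0 -
      2 * Real.sqrt (1 / 2) * Real.sqrt (1 / 2) * 0 = 0 := by ring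
  have e4 : 2 * Real.sqrt (1 / 2) * Real.sqrt (1 / 2) * 0 +
      (Real.sqrt (1 / 2) ^ 2 - Real.sqrt (1 / 2) ^ 2) * 0 = 0 := by ring
  rw [e1, e2, e3, e4]

/-- the average over the rotations about the first axis of the invariant of a skew form -/
theorem EL_qi {T : Zc (I2 m → ℂ)} (hT : Inv T) {μ B : Mt m} (hμ : ∀ i j, μ j i = - μ i j)
    (hB : ∀ i j, B j i = - B i j) (n : ℕ) :
    EL m ((ff false false B + ff true true B) ^ n * (T * qi μ)) =
      (3 / 2) * EL m ((ff false false B + ff true true B) ^ n *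
        (T * (ff false false μ * ff true true μ))) -
      (1 / 4) * (EL m ((ff false false B + ff true true B) ^ n * (T * ff false false μ ^ 2)) +
        EL m ((ff false false B + ff true true B) ^ n * (T * ff true true μ ^ 2))) := by
  have h0 : ∀ Y : Zc (I2 m → ℂ), EL m ((ff false false B + ff true true B) ^ n * Y) =
      2 ^ n * EL m (vv 1 0 0 B ^ n * Y) := by
    intro Y
    rw [vv1, smul_pow, smul_mul_assoc, map_smul, smul_eq_mul, ← mul_assoc, ← mul_pow]
    norm_num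
  have h1 := EL_rot hT hμ hB n
  have h2 : T * qi μ = T * vv 1 0 0 μ ^ 2 + T * vv 0 1 0 μ ^ 2 + T * vv 0 0 1 μ ^ 2 := by
    rw [← vv_sq μ]; ring
  have hI : Complex.I ^ 2 = -1 := Complex.I_sq
  have h3 : T * vv 1 0 0 μ ^ 2 = (1 / 4 : ℂ) • (T * ff false false μ ^ 2) +
      (1 / 4 : ℂ) • (T * ff true true μ ^ 2) +
      (1 / 2 : ℂ) • (T * (ff false false μ * ff true true μ)) := by
    rw [vv1]
    have e1 : algebraMap ℂ (Zc (I2 m → ℂ)) (1 / 2) = 2 * algebraMap ℂ (Zc (I2 m → ℂ)) (1 / 4) := by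
      have : (2 : Zc (I2 m → ℂ)) = algebraMap ℂ (Zc (I2 m → ℂ)) 2 := (map_ofNat _ 2).symm
      rw [this, ← map_mul]; norm_num
    have e2 : algebraMap ℂ (Zc (I2 m → ℂ)) (1 / 2) ^ 2 = algebraMap ℂ (Zc (I2 m → ℂ)) (1 / 4) := by
      rw [← map_pow]; norm_num
    simp only [Algebra.smul_def]
    rw [mul_pow, e2, e1]
    ring
  have h4 : T * vv 0 1 0 μ ^ 2 = (-(1 / 4) : ℂ) • (T * ff false false μ ^ 2) +
      (-(1 / 4) : ℂ) • (T * ff true true μ ^ 2) +
      (1 / 2 : ℂ) • (T * (ff false false μ * ff true true μ)) := by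
    rw [vv2]
    have e1 : algebraMap ℂ (Zc (I2 m → ℂ)) (1 / 2) = 2 * algebraMap ℂ (Zc (I2 m → ℂ)) (1 / 4) := by
      have : (2 : Zc (I2 m → ℂ)) = algebraMap ℂ (Zc (I2 m → ℂ)) 2 := (map_ofNat _ 2).symm
      rw [this, ← map_mul]; norm_num
    have e2 : algebraMap ℂ (Zc (I2 m → ℂ)) (Complex.I / 2) ^ 2 =
        - algebraMap ℂ (Zc (I2 m → ℂ)) (1 / 4) := by
      rw [← map_pow, ← map_neg]
      congr 1
      rw [div_pow, hI]; norm_num
    simp only [Algebra.smul_def]
    rw [mul_pow, e2, e1, map_neg]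
    ring
  rw [h0, h0, h0, h0, h2, mul_add, mul_add, map_add, map_add, ← h1, h3, h4]
  simp only [mul_add, mul_smul_comm, map_add, map_smul, smul_eq_mul]
  ring

/-- Lemma Q -/
theorem EL_lemQ {T : Zc (I2 m → ℂ)} (hT : Inv T) {μ B : Mt m} (hμ : ∀ i j, μ j i = - μ i j)
    (hB : ∀ i j, B j i = - B i j) (r : ℕ) :
    EL m (ff false false B ^ r * ff true true B ^ r * (T * qi μ)) =
      (3 / 2) * EL m (ff false false B ^ r * ff true true B ^ r *
        (T * (ff false false μ * ff true true μ))) -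
      (r / (4 * (r + 1))) *
        (EL m (ff false false B ^ (r - 1) * ff true true B ^ (r + 1) * (T * ff false false μ ^ 2)) +
        EL m (ff false false B ^ (r + 1) * ff true true B ^ (r - 1) * (T * ff true true μ ^ 2))) := by
  have hx := Wt.ff0 hB
  have hy := Wt.ff1 hB
  have hT0 := Wt.inv hT
  have hq := Wt.inv (qi_inv hμ)
  have hx' := Wt.ff0 hμ
  have hy' := Wt.ff1 hμ
  have h1 := EL_qi hT hμ hB (2 * r)
  rw [EL_expand hx hy (hT0.mul hq) (2 * r) r (by omega) (by omega),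
    EL_expand hx hy (hT0.mul (hx'.mul hy')) (2 * r) r (by omega) (by omega)] at h1
  have e0 : 2 * r - r = r := by omega
  rw [e0] at h1
  rcases Nat.eq_zero_or_pos r with hr | hr
  · subst hr
    have z1 : EL m (T * ff false false μ ^ 2) = 0 :=
      (hT0.mul (hx'.pow 2)).zero (by norm_num)
    have z2 : EL m (T * ff true true μ ^ 2) = 0 :=
      (hT0.mul (hy'.pow 2)).zero (by norm_num)
    simp only [mul_zero, pow_zero, one_mul, Nat.choose_self, Nat.cast_one, Nat.cast_zero,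
      zero_div, zero_mul, z1, z2, add_zero, sub_zero] at h1 ⊢
    exact h1
  · rw [EL_expand hx hy (hT0.mul (hx'.pow 2)) (2 * r) (r - 1) (by omega) (by omega),
      EL_expand hx hy (hT0.mul (hy'.pow 2)) (2 * r) (r + 1) (by omega) (by omega)] at h1
    have e1 : 2 * r - (r - 1) = r + 1 := by omega
    have e2 : 2 * r - (r + 1) = r - 1 := by omega
    rw [e1, e2] at h1
    have hc1 : ((2 * r).choose r : ℂ) * r = (2 * r).choose (r - 1) * (r + 1) := by
      have h := Nat.choose_succ_right_eq (2 * r) (r - 1)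
      have e3 : r - 1 + 1 = r := by omega
      rw [e3, e1] at h
      exact_mod_cast h
    have hc2 : ((2 * r).choose (r + 1) : ℂ) = (2 * r).choose (r - 1) := by
      have h := Nat.choose_symm (n := 2 * r) (k := r + 1) (by omega)
      rw [e2] at h
      rw [h]
    have hc0 : ((2 * r).choose r : ℂ) ≠ 0 := by
      exact_mod_cast (Nat.choose_pos (by omega)).ne'
    have hr1 : ((r : ℂ) + 1) ≠ 0 := by exact_mod_cast Nat.succ_ne_zero r
    rw [hc2] at h1
    have hc3 : ((2 * r).choose (r - 1) : ℂ) = (2 * r).choose r * (r / (r + 1)) := by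
      field_simp
      linear_combination -hc1
    rw [hc3] at h1
    have h2 : ((2 * r).choose r : ℂ) * EL m (ff false false B ^ r * ff true true B ^ r * (T * qi μ)) =
        ((2 * r).choose r : ℂ) * ((3 / 2) * EL m (ff false false B ^ r * ff true true B ^ r *
        (T * (ff false false μ * ff true true μ))) -
      (r / (4 * (r + 1))) *
        (EL m (ff false false B ^ (r - 1) * ff true true B ^ (r + 1) * (T * ff false false μ ^ 2)) +
        EL m (ff false false B ^ (r + 1) * ff true true B ^ (r - 1) * (T * ff true true μ ^ 2)))) := by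
      rw [h1]
      field_simp
    exact mul_left_cancel₀ hc0 h2

/-- the constants -/
noncomputable def kp (r j : ℕ) : ℝ := ∏ i ∈ Finset.range j, ((2 * (r + i) + 3) / (2 * (r + i) + 2) : ℝ)

theorem kp_pos (r j : ℕ) : 0 < kp r j := Finset.prod_pos fun i _ => by positivity

theorem kp_succ (r j : ℕ) : kp r (j + 1) = kp r j * ((2 * (r + j) + 3) / (2 * (r + j) + 2)) := by
  unfold kp
  rw [Finset.prod_range_succ]

theorem kp_succ' (r j : ℕ) : kp r (j + 1) = kp (r + 1) j * ((2 * r + 3) / (2 * r + 2)) := by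
  unfold kp
  rw [Finset.prod_range_succ']
  simp only [Nat.cast_zero, add_zero]
  congr 1
  refine Finset.prod_congr rfl fun i _ => ?_
  push_cast
  ring

theorem EL_step {T : Zc (I2 m → ℂ)} (hT : Inv T) {B : Mt m} (hB : ∀ i j, B j i = - B i j)
    (r : ℕ) : EL m (ff false false B ^ r * ff true true B ^ r * (T * qi B)) =
      ((2 * r + 3) / (2 * r + 2)) *
        EL m (ff false false B ^ (r + 1) * ff true true B ^ (r + 1) * T) := by
  rw [EL_lemQ hT hB hB r]
  have e1 : ff false false B ^ r * ff true true B ^ r * (T * (ff false false B * ff true true B)) =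
      ff false false B ^ (r + 1) * ff true true B ^ (r + 1) * T := by ring
  rw [e1]
  rcases Nat.eq_zero_or_pos r with hr | hr
  · subst hr
    simp
  · obtain ⟨s, rfl⟩ : ∃ s, r = s + 1 := ⟨r - 1, by omega⟩
    have e2 : ff false false B ^ (s + 1 - 1) * ff true true B ^ (s + 1 + 1) *
        (T * ff false false B ^ 2) = ff false false B ^ (s + 1 + 1) * ff true true B ^ (s + 1 + 1) * T := by
      rw [Nat.add_sub_cancel]; ring
    have e3 : ff false false B ^ (s + 1 + 1) * ff true true B ^ (s + 1 - 1) *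
        (T * ff true true B ^ 2) = ff false false B ^ (s + 1 + 1) * ff true true B ^ (s + 1 + 1) * T := by
      rw [Nat.add_sub_cancel]; ring
    rw [e2, e3]
    have h1 : (((s + 1 : ℕ) : ℂ) + 1) ≠ 0 := by exact_mod_cast Nat.succ_ne_zero (s + 1)
    have h2 : (2 * ((s + 1 : ℕ) : ℂ) + 2) ≠ 0 := by
      have : (2 * ((s + 1 : ℕ) : ℂ) + 2) = 2 * (((s + 1 : ℕ) : ℂ) + 1) := by ring
      rw [this]
      exact mul_ne_zero two_ne_zero h1
    field_simp
    ring

theorem EL_qi_pow {T : Zc (I2 m → ℂ)} (hT : Inv T) {B : Mt m} (hB : ∀ i j, B j i = - B i j)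
    (j r : ℕ) : EL m (ff false false B ^ r * ff true true B ^ r * (T * qi B ^ j)) =
      (kp r j : ℂ) * EL m (ff false false B ^ (r + j) * ff true true B ^ (r + j) * T) := by
  induction j generalizing r with
  | zero => simp [kp]
  | succ j ih =>
    have e1 : T * qi B ^ (j + 1) = (T * qi B ^ j) * qi B := by ring
    rw [e1, EL_step (hT.mul ((qi_inv hB).pow j)) hB r, ih (r + 1), kp_succ']
    have e2 : r + (j + 1) = r + 1 + j := by ring
    rw [e2]
    push_cast
    ring

end Pool.Agent.Helper147.HM
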