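import Pool.Agent.Helper147.HM.W1

/-!
# Products of quadratic elements and families of matrices
-/

set_option autoImplicit false

namespace Pool.Agent.Helper147.HM

open Pool.Agent.Y195.HF Finset

section dual

variable {m : ℕ}

/-- matrix units of the blocks -/
noncomputable def dg (m : ℕ) (b : Fin m) : Mt m :=
  fun i j => if i = (b, false) ∧ j = (b, true) then 1 else 0

theorem ff_dg (s : Bool) (b : Fin m) :
    ff s s (dg m b) = bv (th m s (b, false)) (th m s (b, true)) := by
  unfold ff dg
  rw [Finset.sum_eq_single (b, false)]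
  · rw [Finset.sum_eq_single (b, true)]
    · simp
    · intro j _ hj
      simp [hj]
    · intro h
      exact absurd (Finset.mem_univ _) h
  · intro i _ hi
    refine Finset.sum_eq_zero fun j _ => ?_
    simp [hi]
  · intro h
    exact absurd (Finset.mem_univ _) h

theorem prod_dg (s : Bool) : ∏ b, ff s s (dg m b) = phi (th m s) := by
  unfold phi
  exact Finset.prod_congr rfl fun b _ => ff_dg s b

theorem lam_dg : lam (dg m) = 1 := by
  unfold lam dg
  rw [Finset.sum_eq_single (1 : Equiv.Perm (Fin m × Bool))]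
  · simp
  · intro σ _ hσ
    obtain ⟨x, hx⟩ : ∃ x, σ x ≠ x := by
      by_contra h
      push Not at h
      exact hσ (Equiv.ext h)
    obtain ⟨b, s⟩ := x
    rw [Finset.prod_eq_zero (Finset.mem_univ b), mul_zero]
    rw [if_neg]
    rintro ⟨h1, h2⟩
    cases s
    · exact hx h1
    · exact hx h2
  · intro h
    exact absurd (Finset.mem_univ _) h

theorem lam_eq (C : Fin m → Mt m) :
    EL m ((∏ b, ff false false (C b)) * phi (th m true)) = lam C := by
  rw [← prod_dg true, ← Finset.prod_mul_distrib, EL_apply, LF_prod, lam_dg, mul_one]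

theorem bv_sum_left {M : Type} [AddCommGroup M] [Module ℂ M] {ι : Type} (s : Finset ι)
    (f : ι → M) (v : M) : bv (∑ i ∈ s, f i) v = ∑ i ∈ s, bv (f i) v := by
  apply zval_inj
  simp only [bv_coe, map_sum, Finset.sum_mul]

theorem bv_sum_right {M : Type} [AddCommGroup M] [Module ℂ M] {ι : Type} (s : Finset ι)
    (f : ι → M) (v : M) : bv v (∑ i ∈ s, f i) = ∑ i ∈ s, bv v (f i) := by
  apply zval_inj
  simp only [bv_coe, map_sum, Finset.mul_sum]

/-- vectors of the piece -/
noncomputable def al (a : Fin m × Bool → Fin 5 → ℝ) (s : Bool) (p : Fin 5) : I2 m → ℂ :=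
  ∑ i, (a i p : ℂ) • th m s i

/-- matrices of the piece -/
noncomputable def Em (a : Fin m × Bool → Fin 5 → ℝ) (p q : Fin 5) : Mt m :=
  fun i j => (a i p : ℂ) * (a j q : ℂ)

theorem cj_Em (a : Fin m × Bool → Fin 5 → ℝ) (p q : Fin 5) : cj (Em a p q) = Em a p q := by
  funext i j
  simp only [cj, Em, map_mul, Complex.conj_ofReal]

theorem ff_Em (a : Fin m × Bool → Fin 5 → ℝ) (s : Bool) (p q : Fin 5) :
    ff s s (Em a p q) = bv (al a s p) (al a s q) := by
  unfold ff al Em
  rw [bv_sum_left]
  refine Finset.sum_congr rfl fun i _ => ?_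
  rw [bv_sum_right]
  refine Finset.sum_congr rfl fun j _ => ?_
  rw [bv_smul_left, bv_smul_right, smul_smul]

/-- the four slots -/
def e4 : Fin 2 × Bool ≃ Fin 4 where
  toFun x := if x.1 = 0 then (if x.2 = true then 1 else 0) else (if x.2 = true then 3 else 2)
  invFun i := ![(0, false), (0, true), (1, false), (1, true)] i
  left_inv := by decide
  right_inv := by decide

theorem quad_phi {M : Type} [AddCommGroup M] [Module ℂ M] (α : Fin 5 → M) (F : Fin 4 → Fin 5) :
    bv (α (F 0)) (α (F 1)) * bv (α (F 2)) (α (F 3)) = phi (m := 2) (fun x => α (F (e4 x))) := by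
  unfold phi
  rw [Fin.prod_univ_two]
  rfl

theorem quad_alt {M : Type} [AddCommGroup M] [Module ℂ M] (α : Fin 5 → M) (F : Fin 4 → Fin 5)
    (π : Equiv.Perm (Fin 4)) :
    bv (α ((F ∘ π) 0)) (α ((F ∘ π) 1)) * bv (α ((F ∘ π) 2)) (α ((F ∘ π) 3)) =
      ((Equiv.Perm.sign π : ℤ) : ℂ) • (bv (α (F 0)) (α (F 1)) * bv (α (F 2)) (α (F 3))) := by
  rw [quad_phi α (F ∘ π), quad_phi α F]
  have h := phi_perm (m := 2) (fun x => α (F (e4 x))) (e4.symm.permCongr π)
  rw [Equiv.Perm.sign_permCongr] at h
  rw [← h]
  congr 1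
  funext x
  simp [Function.comp, Equiv.permCongr_apply]

theorem sext_zero {M : Type} [AddCommGroup M] [Module ℂ M] (α : Fin 5 → M)
    (p q r s t u : Fin 5) : bv (α p) (α q) * bv (α r) (α s) * bv (α t) (α u) = 0 := by
  have h : phi (m := 3) (fun x : Fin 3 × Bool => α (![![p, q], ![r, s], ![t, u]] x.1
      (if x.2 = true then 1 else 0))) = bv (α p) (α q) * bv (α r) (α s) * bv (α t) (α u) := by
    unfold phi
    rw [Fin.prod_univ_three]
    simp
  rw [← h]
  have hni : ¬ Function.Injective (fun x : Fin 3 × Bool => ![![p, q], ![r, s], ![t, u]] x.1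
      (if x.2 = true then 1 else 0)) := by
    intro hi
    have := Fintype.card_le_of_injective _ hi
    simp at this
  simp only [Function.Injective, not_forall] at hni
  obtain ⟨x, y, hxy, hne⟩ := hni
  exact phi_zero (x := x) (y := y) (congrArg α hxy) hne

end dual

section fam

variable {k n : ℕ}

/-- families of matrices -/
def fam (A : Fin k → Mt (k + (n + 2))) (B X Y : Mt (k + (n + 2))) :
    Fin (k + (n + 2)) → Mt (k + (n + 2)) :=
  Fin.append A (Fin.append (fun _ : Fin n => B) ![X, Y])

theorem prod_fam (s : Bool) (A : Fin k → Mt (k + (n + 2))) (B X Y : Mt (k + (n + 2))) :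
    ∏ b, ff s s (fam A B X Y b) =
      (∏ b, ff s s (A b)) * (ff s s B ^ n * (ff s s X * ff s s Y)) := by
  unfold fam
  rw [Fin.prod_univ_add, Fin.prod_univ_add]
  simp only [Fin.append_left, Fin.append_right, Fin.prod_univ_two, Finset.prod_const,
    Finset.card_univ, Fintype.card_fin]
  rfl

theorem fam_cj (A : Fin k → Mt (k + (n + 2))) {B X Y : Mt (k + (n + 2))} (hB : cj B = B)
    (hX : cj X = X) (hY : cj Y = Y) :
    fam (fun b => cj (A b)) B X Y = fun b => cj (fam A B X Y b) := by
  funext b
  unfold fam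
  refine Fin.addCases (fun i => ?_) (fun i => ?_) b
  · simp only [Fin.append_left]
  · simp only [Fin.append_right]
    refine Fin.addCases (fun j => ?_) (fun j => ?_) i
    · simp only [Fin.append_left, hB]
    · simp only [Fin.append_right]
      fin_cases j
      · exact hX.symm
      · exact hY.symm

/-- value of the functional at a product with a generator of the cone -/
theorem EL_gen (r : ℝ) (A : Fin k → Mt (k + (n + 2))) {B X Y X' Y' : Mt (k + (n + 2))}
    (hB : cj B = B) (hX : cj X' = X') (hY : cj Y' = Y') :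
    EL (k + (n + 2)) (((r : ℂ) • ∏ b, (ff false false (A b) * ff true true (cj (A b)))) *
      ((ff false false B ^ n * (ff false false X * ff false false Y)) *
        (ff true true B ^ n * (ff true true X' * ff true true Y')))) =
      r * (lam (fam A B X Y) * (starRingEnd ℂ) (lam (fam A B X' Y'))) := by
  have h1 : ((r : ℂ) • ∏ b, (ff false false (A b) * ff true true (cj (A b)))) *
      ((ff false false B ^ n * (ff false false X * ff false false Y)) *
        (ff true true B ^ n * (ff true true X' * ff true true Y'))) =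
      (r : ℂ) • ∏ b, (ff false false (fam A B X Y b) *
        ff true true (fam (fun b => cj (A b)) B X' Y' b)) := by
    rw [Finset.prod_mul_distrib, Finset.prod_mul_distrib, prod_fam, prod_fam, smul_mul_assoc]
    congr 1
    ring
  rw [h1, map_smul, smul_eq_mul, EL_apply, LF_prod, fam_cj A hB hX hY, lam_cj]

/-- the function of four indices -/
noncomputable def Zf (a : Fin (k + (n + 2)) × Bool → Fin 5 → ℝ) (A : Fin k → Mt (k + (n + 2)))
    (B : Mt (k + (n + 2))) (F : Fin 4 → Fin 5) : ℂ :=
  lam (fam A B (Em a (F 0) (F 1)) (Em a (F 2) (F 3)))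

theorem Zf_alt (a : Fin (k + (n + 2)) × Bool → Fin 5 → ℝ) (A : Fin k → Mt (k + (n + 2)))
    (B : Mt (k + (n + 2))) (F : Fin 4 → Fin 5) (π : Equiv.Perm (Fin 4)) :
    Zf a A B (F ∘ π) = ((Equiv.Perm.sign π : ℤ) : ℂ) * Zf a A B F := by
  unfold Zf
  rw [← lam_eq, ← lam_eq, prod_fam, prod_fam]
  simp only [ff_Em]
  rw [quad_alt, mul_smul_comm, mul_smul_comm, smul_mul_assoc, map_smul, smul_eq_mul]

end fam

end Pool.Agent.Helper147.HM
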