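import Pool.Agent.W863.HD.Good5
import Pool.Agent.W891.HD.DEC
import Pool.Agent.W976.HD.D4
import Pool.Agent.W669.HD.Main

/-!
# A lower bound for the square of a piece of dimension five
-/

set_option autoImplicit false

namespace Pool.Agent.Helper147.HM

open Pool.Agent.W666.GB Pool.Agent.W669.HD Pool.Agent.W863.HD.Good5 Finset

theorem bet_tl (v : Fin 4 → Fin 5 → ℝ) (K : Q5) (Z : (Fin 4 → Fin 5) → ℝ)
    (hZ : ∀ F, Z F = ∑ π : Equiv.Perm (Fin 4), sn π * ∏ i, v (π i) (F i)) :
    ∑ F : Fin 4 → Fin 5, K (F 0) (F 1) (F 2) (F 3) * Z F = bet (tl v K) := by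
  simp only [hZ, bet, Finset.mul_sum]
  rw [Finset.sum_comm]
  refine Finset.sum_congr rfl fun π _ => ?_
  rw [sumF, tl_pair, Finset.mul_sum]
  refine Finset.sum_congr rfl fun x _ => ?_
  rw [Finset.mul_sum]
  refine Finset.sum_congr rfl fun y _ => ?_
  simp only [Fin.prod_univ_four, Matrix.cons_val]
  ring

theorem qf_ge (P Ω : Q5) (n : ℕ) (μ : Fin n → Fin 5 → Fin 5 → ℝ) (hP : Cur5 P) (hΩ : Alt5 Ω)
    (hμ : ∀ a i j, μ a j i = - μ a i j)
    (hK : ∀ i j k l, P i j k l + Ω i j k l = ∑ a, μ a i j * μ a k l)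
    (Z : (Fin 4 → Fin 5) → ℝ) (hZ : AltF Z) :
    (∑ F : Fin 4 → Fin 5, (∑ a, μ a (F 0) (F 1) * μ a (F 2) (F 3)) * Z F) ^ 2 ≤ 6 * qf P P Z := by
  obtain ⟨v, hv⟩ := Pool.Agent.W891.HD.dec Z hZ
  have hqP := qf_eq v P Z hv
  have hC : Cur4 (tl v P) := by
    refine ⟨?_, ?_, ?_⟩
    · intro p q r s
      rw [tl12, ← tl_neg]
      congr 1
      funext i j k l
      exact hP.a12 i j k l
    · intro p q r s
      rw [tl23, tl12, tl34, tl23]
      congr 1
      funext i j k l
      exact hP.pair i j k l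
    · intro p q r s
      have e1 : tl v P q r p s = tl v (fun i j k l => P j k i l) p q r s := by
        rw [tl23, tl12]
      have e2 : tl v P r p q s = tl v (fun i j k l => P k i j l) p q r s := by
        rw [tl12, tl23]
      rw [e1, e2, ← tl_add, ← tl_add, ← tl_zero v p q r s]
      congr 1
      funext i j k l
      exact hP.bia i j k l
  have hO : ∀ i j k l, tl v Ω i j k l = tl v Ω 0 1 2 3 * eps i j k l := by
    intro i j k l
    refine alt_eps ?_ ?_ ?_ i j k l
    · intro p q r s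
      rw [tl12, ← tl_neg]
      congr 1
      funext i j k l
      exact hΩ.a12 i j k l
    · intro p q r s
      rw [tl23, ← tl_neg]
      congr 1
      funext i j k l
      exact hΩ.a23 i j k l
    · intro p q r s
      rw [tl34, ← tl_neg]
      congr 1
      funext i j k l
      exact hΩ.a34 i j k l
  have hμ' : ∀ (a : Fin n) (p q : Fin 4), (∑ i, ∑ j, v q i * v p j * μ a i j) =
      - ∑ i, ∑ j, v p i * v q j * μ a i j := by
    intro a p q
    rw [Finset.sum_comm, ← Finset.sum_neg_distrib]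
    refine Finset.sum_congr rfl fun i _ => ?_
    rw [← Finset.sum_neg_distrib]
    refine Finset.sum_congr rfl fun j _ => ?_
    rw [hμ]
    ring
  have hA : tl v (fun i j k l => P i j k l + Ω i j k l) = fun p q r s =>
      ∑ a, (∑ i, ∑ j, v p i * v q j * μ a i j) * (∑ i, ∑ j, v r i * v s j * μ a i j) := by
    funext p q r s
    have : (fun i j k l => P i j k l + Ω i j k l)
        = (fun i j k l => ∑ a, μ a i j * μ a k l) := by
      funext i j k l
      exact hK i j k l
    rw [this, tl_sum]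
  obtain ⟨h1, h2, h3⟩ := Pool.Agent.W155.HD.K4.k4 (tl v P)
    (tl v (fun i j k l => P i j k l + Ω i j k l)) (tl v Ω 0 1 2 3) n
    (fun a p q => ∑ i, ∑ j, v p i * v q j * μ a i j) hC
    (by
      intro i j k l
      rw [tl_add, hO i j k l])
    hμ' (fun p q r s => by rw [hA])
  have d1 := Pool.Agent.W976.HD.d4.1 n (fun a p q => ∑ i, ∑ j, v p i * v q j * μ a i j) hμ'
  rw [← hA] at d1
  have d2 := Pool.Agent.W976.HD.d4.2 (tl v Ω 0 1 2 3)
  have b1 : bet (tl v P) = 0 := by
    rw [bet_formula hC.a12 hC.pair, hC.bia]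
    ring
  have b2 : bet (tl v (fun i j k l => P i j k l + Ω i j k l)) =
      bet (fun i j k l => tl v Ω 0 1 2 3 * eps i j k l) := by
    have h4 : bet (tl v (fun i j k l => P i j k l + Ω i j k l)) = bet (tl v P) +
        bet (fun i j k l => tl v Ω 0 1 2 3 * eps i j k l) := by
      simp only [bet, ← Finset.sum_add_distrib]
      refine Finset.sum_congr rfl fun π _ => ?_
      rw [tl_add, hO]
      ring
    rw [h4, b1, zero_add]
  have h5 : ∑ F : Fin 4 → Fin 5, (∑ a, μ a (F 0) (F 1) * μ a (F 2) (F 3)) * Z F =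
      bet (tl v (fun i j k l => P i j k l + Ω i j k l)) := by
    rw [← bet_tl v _ Z hv]
    refine Finset.sum_congr rfl fun F _ => ?_
    rw [hK]
  rw [h5, hqP, h1]
  rw [b2] at d1 ⊢
  linarith

end Pool.Agent.Helper147.HM
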