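import Pool.Agent.Helper147.HM.W2
import Pool.Agent.Helper147.HM.W3
import Pool.Agent.Y195.HF.Main

/-!
# Positivity on the cone
-/

set_option autoImplicit false

namespace Pool.Agent.Helper147.HM

open Pool.Agent.Y195.HF Finset
open Pool.Agent.W669.HD (T4 Q5 Cur5 Alt5 AltF qf Fac5)

section piece

variable {m : ℕ}

theorem sumF' {N : Type} [AddCommMonoid N] (f : (Fin 4 → Fin 5) → N) :
    ∑ F, f F = ∑ x : Fin 5 × Fin 5, ∑ y : Fin 5 × Fin 5, f ![x.1, x.2, y.1, y.2] := by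
  let e : (Fin 5 × Fin 5) × (Fin 5 × Fin 5) ≃ (Fin 4 → Fin 5) :=
    { toFun := fun z => ![z.1.1, z.1.2, z.2.1, z.2.2]
      invFun := fun F => ((F 0, F 1), (F 2, F 3))
      left_inv := fun z => by simp
      right_inv := fun F => by
        funext i
        fin_cases i <;> rfl }
  rw [← e.sum_comp, Fintype.sum_prod_type]
  rfl

/-- the element of the piece -/
noncomputable def Sp (a : Fin m × Bool → Fin 5 → ℝ) (P : Q5) : Zc (I2 m → ℂ) :=
  ∑ x : Fin 5 × Fin 5, ∑ y : Fin 5 × Fin 5, ((P x.1 x.2 y.1 y.2 : ℝ) : ℂ) •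
    (ff false false (Em a x.1 x.2) * ff true true (Em a y.1 y.2))

theorem Sp_eq {a : Fin m × Bool → Fin 5 → ℝ} {K : T4 m} {P : Q5} (h : Fac5 a K P) :
    eL (cx K) = Sp a P := by
  have h1 : cx K = fun i j k l => ∑ x : Fin 5 × Fin 5, ∑ y : Fin 5 × Fin 5,
      ((P x.1 x.2 y.1 y.2 : ℝ) : ℂ) * (Em a x.1 x.2 i j * Em a y.1 y.2 k l) := by
    funext i j k l
    simp only [cx, h i j k l, Fintype.sum_prod_type, Em]
    push_cast
    refine Finset.sum_congr rfl fun p _ => Finset.sum_congr rfl fun q _ =>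
      Finset.sum_congr rfl fun r _ => Finset.sum_congr rfl fun s _ => ?_
    ring
  rw [h1, eL_sum (fun (x : Fin 5 × Fin 5) i j k l => ∑ y : Fin 5 × Fin 5,
      ((P x.1 x.2 y.1 y.2 : ℝ) : ℂ) * (Em a x.1 x.2 i j * Em a y.1 y.2 k l)), Sp]
  refine Finset.sum_congr rfl fun x _ => ?_
  rw [eL_sum (fun (y : Fin 5 × Fin 5) i j k l =>
      ((P x.1 x.2 y.1 y.2 : ℝ) : ℂ) * (Em a x.1 x.2 i j * Em a y.1 y.2 k l))]
  refine Finset.sum_congr rfl fun y _ => ?_
  rw [eL_smul ((P x.1 x.2 y.1 y.2 : ℝ) : ℂ) (fun i j k l => Em a x.1 x.2 i j * Em a y.1 y.2 k l),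
    eL_mul]

theorem Sp_sq (a : Fin m × Bool → Fin 5 → ℝ) (P : Q5) : Sp a P ^ 2 =
    ∑ F : Fin 4 → Fin 5, ∑ G : Fin 4 → Fin 5,
      ((P (F 0) (F 1) (G 0) (G 1) * P (F 2) (F 3) (G 2) (G 3) : ℝ) : ℂ) •
      ((ff false false (Em a (F 0) (F 1)) * ff false false (Em a (F 2) (F 3))) *
        (ff true true (Em a (G 0) (G 1)) * ff true true (Em a (G 2) (G 3)))) := by
  rw [sumF']
  simp only [sumF' (fun G : Fin 4 → Fin 5 => _)]
  rw [sq, Sp, Finset.sum_mul]
  refine Finset.sum_congr rfl fun x _ => ?_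
  rw [Finset.sum_mul]
  have h1 : ∀ x' : Fin 5 × Fin 5, ((P x.1 x.2 x'.1 x'.2 : ℝ) : ℂ) •
      (ff false false (Em a x.1 x.2) * ff true true (Em a x'.1 x'.2)) *
      (∑ y : Fin 5 × Fin 5, ∑ y' : Fin 5 × Fin 5, ((P y.1 y.2 y'.1 y'.2 : ℝ) : ℂ) •
        (ff false false (Em a y.1 y.2) * ff true true (Em a y'.1 y'.2))) =
      ∑ y : Fin 5 × Fin 5, ∑ y' : Fin 5 × Fin 5,
        (((P x.1 x.2 x'.1 x'.2 * P y.1 y.2 y'.1 y'.2 : ℝ) : ℂ)) •
        ((ff false false (Em a x.1 x.2) * ff false false (Em a y.1 y.2)) *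
          (ff true true (Em a x'.1 x'.2) * ff true true (Em a y'.1 y'.2))) := by
    intro x'
    rw [Finset.mul_sum]
    refine Finset.sum_congr rfl fun y _ => ?_
    rw [Finset.mul_sum]
    refine Finset.sum_congr rfl fun y' _ => ?_
    rw [smul_mul_smul_comm]
    push_cast
    congr 1
    ring
  rw [Finset.sum_congr rfl fun x' _ => h1 x', Finset.sum_comm]
  refine Finset.sum_congr rfl fun y _ => Finset.sum_congr rfl fun x' _ =>
    Finset.sum_congr rfl fun y' _ => ?_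
  rfl

theorem Sp_cube (a : Fin m × Bool → Fin 5 → ℝ) (P : Q5) : Sp a P ^ 3 = 0 := by
  rw [pow_succ, Sp_sq, Sp, Finset.sum_mul]
  refine Finset.sum_eq_zero fun F _ => ?_
  rw [Finset.sum_mul]
  refine Finset.sum_eq_zero fun G _ => ?_
  rw [Finset.mul_sum]
  refine Finset.sum_eq_zero fun x _ => ?_
  rw [Finset.mul_sum]
  refine Finset.sum_eq_zero fun y _ => ?_
  rw [smul_mul_smul_comm]
  have h := sext_zero (al a false) (F 0) (F 1) (F 2) (F 3) x.1 x.2
  rw [← ff_Em, ← ff_Em, ← ff_Em] at h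
  have h2 : (ff false false (Em a (F 0) (F 1)) * ff false false (Em a (F 2) (F 3))) *
        (ff true true (Em a (G 0) (G 1)) * ff true true (Em a (G 2) (G 3))) *
      (ff false false (Em a x.1 x.2) * ff true true (Em a y.1 y.2)) =
      (ff false false (Em a (F 0) (F 1)) * ff false false (Em a (F 2) (F 3)) *
        ff false false (Em a x.1 x.2)) *
        (ff true true (Em a (G 0) (G 1)) * ff true true (Em a (G 2) (G 3)) *
        ff true true (Em a y.1 y.2)) := by ring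
  rw [h2, h, zero_mul, smul_zero]

/-- matrices on the piece -/
noncomputable def Mm (a : Fin m × Bool → Fin 5 → ℝ) (ν : Fin 5 → Fin 5 → ℝ) : Mt m :=
  fun i j => ∑ x : Fin 5 × Fin 5, ((ν x.1 x.2 : ℝ) : ℂ) * Em a x.1 x.2 i j

theorem ff_Mm (a : Fin m × Bool → Fin 5 → ℝ) (ν : Fin 5 → Fin 5 → ℝ) (s : Bool) :
    ff s s (Mm a ν) = ∑ x : Fin 5 × Fin 5, ((ν x.1 x.2 : ℝ) : ℂ) • ff s s (Em a x.1 x.2) := by
  simp only [ff, Mm, Finset.smul_sum, Finset.sum_smul, mul_smul]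
  symm
  rw [Finset.sum_comm]
  refine Finset.sum_congr rfl fun i _ => ?_
  rw [Finset.sum_comm]

theorem cj_Mm (a : Fin m × Bool → Fin 5 → ℝ) (ν : Fin 5 → Fin 5 → ℝ) :
    cj (Mm a ν) = Mm a ν := by
  funext i j
  simp only [cj, Mm, map_sum, map_mul, Complex.conj_ofReal, Em]

theorem Mm_anti (a : Fin m × Bool → Fin 5 → ℝ) {ν : Fin 5 → Fin 5 → ℝ}
    (hν : ∀ p q, ν q p = - ν p q) (i j : Fin m × Bool) : Mm a ν j i = - Mm a ν i j := by
  simp only [Mm, Em, Fintype.sum_prod_type]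
  rw [Finset.sum_comm, ← Finset.sum_neg_distrib]
  refine Finset.sum_congr rfl fun p _ => ?_
  rw [← Finset.sum_neg_distrib]
  refine Finset.sum_congr rfl fun q _ => ?_
  rw [hν p q]
  push_cast
  ring

/-- squares of the matrices on the piece -/
noncomputable def Th (a : Fin m × Bool → Fin 5 → ℝ) {N : ℕ} (μ : Fin N → Fin 5 → Fin 5 → ℝ)
    (s : Bool) : Zc (I2 m → ℂ) := ∑ b, ff s s (Mm a (μ b)) ^ 2

theorem Th_eq (a : Fin m × Bool → Fin 5 → ℝ) {N : ℕ} (μ : Fin N → Fin 5 → Fin 5 → ℝ) (s : Bool) :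
    Th a μ s = ∑ F : Fin 4 → Fin 5, ((∑ b, μ b (F 0) (F 1) * μ b (F 2) (F 3) : ℝ) : ℂ) •
      (ff s s (Em a (F 0) (F 1)) * ff s s (Em a (F 2) (F 3))) := by
  rw [sumF']
  simp only [Th, ff_Mm, sq]
  have h1 : ∀ b, (∑ x : Fin 5 × Fin 5, ((μ b x.1 x.2 : ℝ) : ℂ) • ff s s (Em a x.1 x.2)) *
      (∑ x : Fin 5 × Fin 5, ((μ b x.1 x.2 : ℝ) : ℂ) • ff s s (Em a x.1 x.2)) =
      ∑ x : Fin 5 × Fin 5, ∑ y : Fin 5 × Fin 5, (((μ b x.1 x.2 : ℝ) : ℂ) * ((μ b y.1 y.2 : ℝ) : ℂ)) •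
        (ff s s (Em a x.1 x.2) * ff s s (Em a y.1 y.2)) := by
    intro b
    rw [Finset.sum_mul_sum]
    refine Finset.sum_congr rfl fun x _ => Finset.sum_congr rfl fun y _ => ?_
    rw [smul_mul_smul_comm]
  rw [Finset.sum_congr rfl fun b _ => h1 b, Finset.sum_comm]
  refine Finset.sum_congr rfl fun x _ => ?_
  rw [Finset.sum_comm]
  refine Finset.sum_congr rfl fun y _ => ?_
  rw [← Finset.sum_smul]
  push_cast
  rfl

end piece

section pos

variable {k n : ℕ}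

/-- the test element -/
noncomputable def Psi {m : ℕ} (x y θ₀ θ₁ S : Zc (I2 m → ℂ)) (n : ℕ) (c₀ c₁ c₂ : ℝ) :
    Zc (I2 m → ℂ) :=
  (c₀ : ℂ) • (x ^ (n + 2) * y ^ (n + 2)) -
    (c₁ : ℂ) • (x ^ n * y ^ (n + 2) * θ₀ + x ^ (n + 2) * y ^ n * θ₁) +
    (c₂ : ℂ) • (x ^ n * y ^ n * S ^ 2)

theorem gen_pos {r : ℝ} (hr : 0 ≤ r) (A : Fin k → Mt (k + (n + 2))) {B : Mt (k + (n + 2))}
    (hB : cj B = B) (a : Fin (k + (n + 2)) × Bool → Fin 5 → ℝ) {P Ω : Q5} {N : ℕ}
    {μ : Fin N → Fin 5 → Fin 5 → ℝ} (hP : Cur5 P) (hΩ : Alt5 Ω)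
    (hμ : ∀ a i j, μ a j i = - μ a i j)
    (hK : ∀ i j k l, P i j k l + Ω i j k l = ∑ a, μ a i j * μ a k l)
    {c₀ c₁ c₂ : ℝ} (h0 : 0 < c₀) (h2 : 0 ≤ c₂) (hc : 6 * c₁ ^ 2 ≤ c₀ * c₂) :
    0 ≤ (EL (k + (n + 2)) (((r : ℂ) • ∏ b, (ff false false (A b) * ff true true (cj (A b)))) *
      Psi (ff false false B) (ff true true B) (Th a μ false) (Th a μ true) (Sp a P) n
        c₀ c₁ c₂)).re := by
  set T := ((r : ℂ) • ∏ b, (ff false false (A b) * ff true true (cj (A b))) :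
    Zc (I2 (k + (n + 2)) → ℂ)) with hT
  set β : ℂ := lam (fam A B B B) with hβ
  have e1 : EL (k + (n + 2)) (T * (ff false false B ^ (n + 2) * ff true true B ^ (n + 2))) =
      r * (β * (starRingEnd ℂ) β) := by
    rw [hβ, ← EL_gen r A hB hB hB]
    congr 1
    ring
  have e2 : EL (k + (n + 2)) (T * (ff false false B ^ n * ff true true B ^ (n + 2) *
      Th a μ false)) = ∑ F : Fin 4 → Fin 5, ((∑ b, μ b (F 0) (F 1) * μ b (F 2) (F 3) : ℝ) : ℂ) *
        (r * (Zf a A B F * (starRingEnd ℂ) β)) := by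
    rw [Th_eq, Finset.mul_sum, Finset.mul_sum, map_sum]
    refine Finset.sum_congr rfl fun F _ => ?_
    rw [mul_smul_comm, mul_smul_comm, map_smul, smul_eq_mul]
    congr 1
    rw [hβ, Zf, ← EL_gen r A hB hB hB]
    congr 1
    ring
  have e3 : EL (k + (n + 2)) (T * (ff false false B ^ (n + 2) * ff true true B ^ n *
      Th a μ true)) = ∑ F : Fin 4 → Fin 5, ((∑ b, μ b (F 0) (F 1) * μ b (F 2) (F 3) : ℝ) : ℂ) *
        (r * (β * (starRingEnd ℂ) (Zf a A B F))) := by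
    rw [Th_eq, Finset.mul_sum, Finset.mul_sum, map_sum]
    refine Finset.sum_congr rfl fun F _ => ?_
    rw [mul_smul_comm, mul_smul_comm, map_smul, smul_eq_mul]
    congr 1
    rw [hβ, Zf, ← EL_gen r A hB (cj_Em a _ _) (cj_Em a _ _)]
    congr 1
    ring
  have e4 : EL (k + (n + 2)) (T * (ff false false B ^ n * ff true true B ^ n * Sp a P ^ 2)) =
      ∑ F : Fin 4 → Fin 5, ∑ G : Fin 4 → Fin 5,
        ((P (F 0) (F 1) (G 0) (G 1) * P (F 2) (F 3) (G 2) (G 3) : ℝ) : ℂ) *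
        (r * (Zf a A B F * (starRingEnd ℂ) (Zf a A B G))) := by
    rw [Sp_sq, Finset.mul_sum, Finset.mul_sum, map_sum]
    refine Finset.sum_congr rfl fun F _ => ?_
    rw [Finset.mul_sum, Finset.mul_sum, map_sum]
    refine Finset.sum_congr rfl fun G _ => ?_
    rw [mul_smul_comm, mul_smul_comm, map_smul, smul_eq_mul]
    congr 1
    rw [Zf, Zf, ← EL_gen r A hB (cj_Em a _ _) (cj_Em a _ _)]
    congr 1
    ring
  have hsum : EL (k + (n + 2)) (T * Psi (ff false false B) (ff true true B) (Th a μ false)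
      (Th a μ true) (Sp a P) n c₀ c₁ c₂) =
      c₀ * EL (k + (n + 2)) (T * (ff false false B ^ (n + 2) * ff true true B ^ (n + 2))) -
      c₁ * (EL (k + (n + 2)) (T * (ff false false B ^ n * ff true true B ^ (n + 2) *
        Th a μ false)) + EL (k + (n + 2)) (T * (ff false false B ^ (n + 2) *
        ff true true B ^ n * Th a μ true))) +
      c₂ * EL (k + (n + 2)) (T * (ff false false B ^ n * ff true true B ^ n * Sp a P ^ 2)) := by
    rw [Psi]
    simp only [mul_add, mul_sub, mul_smul_comm, map_add, map_sub, map_smul, smul_eq_mul]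
  have hA1 : AltF (fun F => (Zf a A B F).re) := by
    intro F π
    show (Zf a A B (F ∘ π)).re = _
    rw [Zf_alt, Complex.mul_re, Complex.intCast_re, Complex.intCast_im]
    simp only [Pool.Agent.W666.GB.sn, zero_mul, sub_zero]
  have hA2 : AltF (fun F => (Zf a A B F).im) := by
    intro F π
    show (Zf a A B (F ∘ π)).im = _
    rw [Zf_alt, Complex.mul_im, Complex.intCast_re, Complex.intCast_im]
    simp only [Pool.Agent.W666.GB.sn, zero_mul, add_zero]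
  have q1 := qf_ge P Ω N μ hP hΩ hμ hK _ hA1
  have q2 := qf_ge P Ω N μ hP hΩ hμ hK _ hA2
  set y₁ : ℝ := ∑ F : Fin 4 → Fin 5, (∑ b, μ b (F 0) (F 1) * μ b (F 2) (F 3)) *
    (Zf a A B F).re with hy1
  set y₂ : ℝ := ∑ F : Fin 4 → Fin 5, (∑ b, μ b (F 0) (F 1) * μ b (F 2) (F 3)) *
    (Zf a A B F).im with hy2
  set g₁ : ℝ := qf P P (fun F => (Zf a A B F).re) with hg1
  set g₂ : ℝ := qf P P (fun F => (Zf a A B F).im) with hg2
  have r1 : (EL (k + (n + 2)) (T * (ff false false B ^ (n + 2) * ff true true B ^ (n + 2)))).re =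
      r * (β.re ^ 2 + β.im ^ 2) := by
    rw [e1]
    simp only [Complex.mul_re, Complex.mul_im, Complex.conj_re, Complex.conj_im,
      Complex.ofReal_re, Complex.ofReal_im]
    ring
  have r2 : (EL (k + (n + 2)) (T * (ff false false B ^ n * ff true true B ^ (n + 2) *
      Th a μ false))).re = r * (y₁ * β.re + y₂ * β.im) := by
    rw [e2, Complex.re_sum, hy1, hy2, Finset.sum_mul, Finset.sum_mul, ← Finset.sum_add_distrib,
      Finset.mul_sum]
    refine Finset.sum_congr rfl fun F _ => ?_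
    simp only [Complex.mul_re, Complex.mul_im, Complex.conj_re, Complex.conj_im,
      Complex.ofReal_re, Complex.ofReal_im]
    ring
  have r3 : (EL (k + (n + 2)) (T * (ff false false B ^ (n + 2) * ff true true B ^ n *
      Th a μ true))).re = r * (y₁ * β.re + y₂ * β.im) := by
    rw [e3, Complex.re_sum, hy1, hy2, Finset.sum_mul, Finset.sum_mul, ← Finset.sum_add_distrib,
      Finset.mul_sum]
    refine Finset.sum_congr rfl fun F _ => ?_
    simp only [Complex.mul_re, Complex.mul_im, Complex.conj_re, Complex.conj_im,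
      Complex.ofReal_re, Complex.ofReal_im]
    ring
  have r4 : (EL (k + (n + 2)) (T * (ff false false B ^ n * ff true true B ^ n *
      Sp a P ^ 2))).re = r * (g₁ + g₂) := by
    rw [e4, Complex.re_sum, hg1, hg2, qf, qf, ← Finset.sum_add_distrib, Finset.mul_sum]
    refine Finset.sum_congr rfl fun F _ => ?_
    rw [Complex.re_sum, ← Finset.sum_add_distrib, Finset.mul_sum]
    refine Finset.sum_congr rfl fun G _ => ?_
    simp only [Complex.mul_re, Complex.mul_im, Complex.conj_re, Complex.conj_im,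
      Complex.ofReal_re, Complex.ofReal_im]
    ring
  rw [hsum]
  simp only [Complex.add_re, Complex.sub_re, Complex.re_ofReal_mul, r1, r2, r3, r4]
  have hpt : ∀ b y g : ℝ, y ^ 2 ≤ 6 * g → 0 ≤ c₀ * b ^ 2 - 2 * c₁ * (y * b) + c₂ * g := by
    intro b y g hg
    have h3 : 0 ≤ c₀ * (c₀ * b ^ 2 - 2 * c₁ * (y * b) + c₂ * g) := by
      nlinarith [sq_nonneg (c₀ * b - c₁ * y), mul_le_mul_of_nonneg_right hc (sq_nonneg y),
        mul_le_mul_of_nonneg_left hg (mul_nonneg h0.le h2)]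
    exact nonneg_of_mul_nonneg_right h3 h0
  have p1 := hpt β.re y₁ g₁ q1
  have p2 := hpt β.im y₂ g₂ q2
  have h5 : c₀ * (r * (β.re ^ 2 + β.im ^ 2)) - c₁ * (r * (y₁ * β.re + y₂ * β.im) +
      r * (y₁ * β.re + y₂ * β.im)) + c₂ * (r * (g₁ + g₂)) =
      r * ((c₀ * β.re ^ 2 - 2 * c₁ * (y₁ * β.re) + c₂ * g₁) +
        (c₀ * β.im ^ 2 - 2 * c₁ * (y₂ * β.im) + c₂ * g₂)) := by ring
  rw [h5]
  exact mul_nonneg hr (add_nonneg p1 p2)

theorem cone_pos {T : Zc (I2 (k + (n + 2)) → ℂ)} (hT : T ∈ cone (k + (n + 2)) k)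
    {B : Mt (k + (n + 2))}
    (hB : cj B = B) (a : Fin (k + (n + 2)) × Bool → Fin 5 → ℝ) {P Ω : Q5} {N : ℕ}
    {μ : Fin N → Fin 5 → Fin 5 → ℝ} (hP : Cur5 P) (hΩ : Alt5 Ω)
    (hμ : ∀ a i j, μ a j i = - μ a i j)
    (hK : ∀ i j k l, P i j k l + Ω i j k l = ∑ a, μ a i j * μ a k l)
    {c₀ c₁ c₂ : ℝ} (h0 : 0 < c₀) (h2 : 0 ≤ c₂) (hc : 6 * c₁ ^ 2 ≤ c₀ * c₂) :
    0 ≤ (EL (k + (n + 2)) (T * Psi (ff false false B) (ff true true B) (Th a μ false)
      (Th a μ true) (Sp a P) n c₀ c₁ c₂)).re := by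
  unfold cone at hT
  induction hT using AddSubmonoid.closure_induction with
  | mem T hT =>
    obtain ⟨r, A, hr, rfl⟩ := hT
    exact gen_pos hr A hB a hP hΩ hμ hK h0 h2 hc
  | zero => rw [zero_mul, map_zero, Complex.zero_re]
  | add x y _ _ hx hy =>
    rw [add_mul, map_add, Complex.add_re]
    exact add_nonneg hx hy

end pos

end Pool.Agent.Helper147.HM
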