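import Pool.Agent.Helper147.HM.W4

/-!
# One piece of dimension five and one skew form
-/

set_option autoImplicit false

namespace Pool.Agent.Helper147.HM

open Pool.Agent.Y195.HF Finset
open Pool.Agent.W669.HD (T4 Q5 Cur5 Alt5 AltF qf Fac5)

section tensor

variable {J : Type}

/-- contraction of a tensor with four vectors -/
noncomputable def ct (a : J → Fin 5 → ℝ) (f : Q5) (i j k l : J) : ℝ :=
  ∑ p, ∑ q, ∑ r, ∑ s, a i p * a j q * a k r * a l s * f p q r s

theorem ct_23 (a : J → Fin 5 → ℝ) (f : Q5) (i j k l : J) :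
    ct a (fun p q r s => f p r q s) i j k l = ct a f i k j l := by
  unfold ct
  refine Finset.sum_congr rfl fun p _ => ?_
  rw [Finset.sum_comm]
  refine Finset.sum_congr rfl fun q _ => Finset.sum_congr rfl fun r _ =>
    Finset.sum_congr rfl fun s _ => ?_
  ring

theorem ct_34 (a : J → Fin 5 → ℝ) (f : Q5) (i j k l : J) :
    ct a (fun p q r s => f p q s r) i j k l = ct a f i j l k := by
  unfold ct
  refine Finset.sum_congr rfl fun p _ => Finset.sum_congr rfl fun q _ => ?_
  rw [Finset.sum_comm]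
  refine Finset.sum_congr rfl fun r _ => Finset.sum_congr rfl fun s _ => ?_
  ring

theorem ct_add (a : J → Fin 5 → ℝ) (f g : Q5) (i j k l : J) :
    ct a (fun p q r s => f p q r s + g p q r s) i j k l = ct a f i j k l + ct a g i j k l := by
  unfold ct
  simp only [mul_add, Finset.sum_add_distrib]

theorem ct_smul (a : J → Fin 5 → ℝ) (c : ℝ) (f : Q5) (i j k l : J) :
    ct a (fun p q r s => c * f p q r s) i j k l = c * ct a f i j k l := by
  unfold ct
  simp only [Finset.mul_sum]
  refine Finset.sum_congr rfl fun p _ => Finset.sum_congr rfl fun q _ =>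
    Finset.sum_congr rfl fun r _ => Finset.sum_congr rfl fun s _ => ?_
  ring

theorem ct_sum (a : J → Fin 5 → ℝ) {κ : Type} (t : Finset κ) (f : κ → Q5) (i j k l : J) :
    ct a (fun p q r s => ∑ b ∈ t, f b p q r s) i j k l = ∑ b ∈ t, ct a (f b) i j k l := by
  classical
  induction t using Finset.induction_on with
  | empty => simp [ct]
  | insert b t hb ih =>
    simp only [Finset.sum_insert hb]
    rw [ct_add a (f b) (fun p q r s => ∑ b ∈ t, f b p q r s), ih]

/-- real matrices on the piece -/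
noncomputable def Mr (a : J → Fin 5 → ℝ) (ν : Fin 5 → Fin 5 → ℝ) (i j : J) : ℝ :=
  ∑ p, ∑ q, a i p * a j q * ν p q

theorem ct_mul (a : J → Fin 5 → ℝ) (ν : Fin 5 → Fin 5 → ℝ) (i j k l : J) :
    ct a (fun p q r s => ν p q * ν r s) i j k l = Mr a ν i j * Mr a ν k l := by
  unfold ct Mr
  rw [← Pool.Agent.W863.HD.Good5.quad (fun p q => a i p * a j q * ν p q)
    (fun p q => a k p * a l q * ν p q)]
  refine Finset.sum_congr rfl fun p _ => Finset.sum_congr rfl fun q _ =>
    Finset.sum_congr rfl fun r _ => Finset.sum_congr rfl fun s _ => ?_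
  ring

theorem ct_mul' (a : J → Fin 5 → ℝ) (ν : Fin 5 → Fin 5 → ℝ) (i j k l : J) :
    ct a (fun p q r s => ν p r * ν q s) i j k l = Mr a ν i k * Mr a ν j l := by
  rw [ct_23 a (fun p q r s => ν p q * ν r s), ct_mul]

theorem ct_mul'' (a : J → Fin 5 → ℝ) (ν : Fin 5 → Fin 5 → ℝ) (i j k l : J) :
    ct a (fun p q r s => ν p s * ν q r) i j k l = Mr a ν i l * Mr a ν j k := by
  rw [ct_34 a (fun p q r s => ν p r * ν q s), ct_mul']

end tensor

variable {m : ℕ}

theorem Mm_eq (a : Fin m × Bool → Fin 5 → ℝ) (ν : Fin 5 → Fin 5 → ℝ) (i j : Fin m × Bool) :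
    Mm a ν i j = ((Mr a ν i j : ℝ) : ℂ) := by
  simp only [Mm, Mr, Em, Fintype.sum_prod_type]
  push_cast
  refine Finset.sum_congr rfl fun p _ => Finset.sum_congr rfl fun q _ => ?_
  ring

/-- the tensor of the piece is a sum of curvature tensors of skew forms -/
theorem piece_sc {P Ω : Q5} {N : ℕ} {μ : Fin N → Fin 5 → Fin 5 → ℝ} (hP : Cur5 P) (hΩ : Alt5 Ω)
    (hK : ∀ i j k l, P i j k l + Ω i j k l = ∑ a, μ a i j * μ a k l) (p q r s : Fin 5) :
    P p q r s = (1 / 3) * ((2 * ∑ b, μ b p q * μ b r s + ∑ b, μ b p r * μ b q s) +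
      (-1) * ∑ b, μ b p s * μ b q r) := by
  rw [← hK p q r s, ← hK p r q s, ← hK p s q r]
  have b1 := hP.bia p q r s
  have b2 := hP.a12 p r q s
  have b3 := hP.pair p s q r
  have o1 := hΩ.a23 p q r s
  have o2 := hΩ.a23 p q s r
  have o3 := hΩ.a34 p q r s
  linarith

theorem eL_piece {a : Fin m × Bool → Fin 5 → ℝ} {K : T4 m} {P Ω : Q5} {N : ℕ}
    {μ : Fin N → Fin 5 → Fin 5 → ℝ} (h : Fac5 a K P) (hP : Cur5 P) (hΩ : Alt5 Ω)
    (hK : ∀ i j k l, P i j k l + Ω i j k l = ∑ a, μ a i j * μ a k l) :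
    eL (cx K) = (2 / 3 : ℂ) • ∑ b, qi (Mm a (μ b)) := by
  have h1 : cx K = fun i j k l => (1 / 3 : ℂ) * ∑ b, scC (Mm a (μ b)) i j k l := by
    funext i j k l
    have h2 : K i j k l = ct a P i j k l := h i j k l
    have h3 : P = fun p q r s => (1 / 3) * ((2 * ∑ b, μ b p q * μ b r s +
        ∑ b, μ b p r * μ b q s) + (-1) * ∑ b, μ b p s * μ b q r) := by
      funext p q r s
      exact piece_sc hP hΩ hK p q r s
    have h4 : ct a P i j k l = (1 / 3) * ∑ b, (2 * (Mr a (μ b) i j * Mr a (μ b) k l) +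
        Mr a (μ b) i k * Mr a (μ b) j l - Mr a (μ b) i l * Mr a (μ b) j k) := by
      rw [h3, ct_smul a (1 / 3) (fun p q r s => (2 * ∑ b, μ b p q * μ b r s +
        ∑ b, μ b p r * μ b q s) + (-1) * ∑ b, μ b p s * μ b q r),
        ct_add a (fun p q r s => 2 * ∑ b, μ b p q * μ b r s + ∑ b, μ b p r * μ b q s)
          (fun p q r s => (-1) * ∑ b, μ b p s * μ b q r),
        ct_add a (fun p q r s => 2 * ∑ b, μ b p q * μ b r s)
          (fun p q r s => ∑ b, μ b p r * μ b q s),
        ct_smul a 2 (fun p q r s => ∑ b, μ b p q * μ b r s),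
        ct_smul a (-1) (fun p q r s => ∑ b, μ b p s * μ b q r),
        ct_sum a univ (fun b p q r s => μ b p q * μ b r s),
        ct_sum a univ (fun b p q r s => μ b p r * μ b q s),
        ct_sum a univ (fun b p q r s => μ b p s * μ b q r)]
      simp only [ct_mul, ct_mul', ct_mul'']
      rw [Finset.sum_sub_distrib, Finset.sum_add_distrib, Finset.mul_sum]
      ring
    simp only [cx]
    rw [h2, h4]
    simp only [scC, Mm_eq]
    push_cast
    rfl
  rw [h1, eL_smul (1 / 3) (fun i j k l => ∑ b, scC (Mm a (μ b)) i j k l),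
    eL_sum (fun b => scC (Mm a (μ b)))]
  simp only [eL_sc]
  rw [← Finset.smul_sum, smul_smul]
  norm_num

theorem cube_expand {R : Type} [CommRing R] {S q : R} (hS : S ^ 3 = 0) (n : ℕ) :
    (S + q) ^ (n + 2) = q ^ (n + 2) + ((n : R) + 2) * (S * q ^ (n + 1)) +
      ((n + 2).choose 2 : R) * (S ^ 2 * q ^ n) := by
  rw [add_pow]
  have h1 : ∑ i ∈ Finset.range (n + 2 + 1), S ^ i * q ^ (n + 2 - i) * ((n + 2).choose i : R) =
      ∑ i ∈ Finset.range 3, S ^ i * q ^ (n + 2 - i) * ((n + 2).choose i : R) := by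
    symm
    refine Finset.sum_subset (Finset.range_mono (by omega)) fun i _ hi => ?_
    have h3 : 3 ≤ i := by simpa using hi
    have : S ^ i = 0 := by
      obtain ⟨j, rfl⟩ := Nat.exists_eq_add_of_le h3
      rw [pow_add, hS, zero_mul]
    rw [this, zero_mul, zero_mul]
  rw [h1, Finset.sum_range_succ, Finset.sum_range_succ, Finset.sum_range_succ,
    Finset.sum_range_zero]
  have e1 : n + 2 - 1 = n + 1 := by omega
  have e2 : n + 2 - 2 = n := by omega
  rw [e1, e2]
  simp only [Nat.sub_zero, Nat.choose_zero_right, Nat.choose_one_right]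
  push_cast
  ring

theorem coef_ineq (n : ℕ) {K : ℝ} (hK : 0 < K) :
    6 * (2 ^ (n + 1) * (K * ((2 * n + 3) / (2 * n + 2))) * ((n + 1) / 6)) ^ 2 ≤
      (2 ^ (n + 2) * (K * ((2 * n + 3) / (2 * n + 2)) * ((2 * n + 5) / (2 * n + 4)))) *
        ((n + 2) * (n + 1) / 2 * (2 ^ n * K)) := by
  have hn : (0 : ℝ) ≤ n := Nat.cast_nonneg n
  have h1 : 6 * (2 ^ (n + 1) * (K * ((2 * (n : ℝ) + 3) / (2 * n + 2))) * ((n + 1) / 6)) ^ 2 =
      (2 ^ n * K) ^ 2 * (2 * n + 3) * ((2 * n + 3) / 6) := by
    rw [pow_succ]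
    field_simp
    ring
  have h2 : (2 ^ (n + 2) * (K * ((2 * (n : ℝ) + 3) / (2 * n + 2)) * ((2 * n + 5) / (2 * n + 4)))) *
        ((n + 2) * (n + 1) / 2 * (2 ^ n * K)) =
      (2 ^ n * K) ^ 2 * (2 * n + 3) * ((2 * n + 5) / 2) := by
    rw [pow_add]
    field_simp
    ring
  rw [h1, h2]
  refine mul_le_mul_of_nonneg_left ?_ (by positivity)
  linarith

/-- **Main positivity.** -/
theorem piece_pos {a : Fin m × Bool → Fin 5 → ℝ} {K : T4 m} {P Ω : Q5} {N : ℕ}
    {μ : Fin N → Fin 5 → Fin 5 → ℝ} (hf : Fac5 a K P) (hP : Cur5 P) (hΩ : Alt5 Ω)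
    (hμ : ∀ a i j, μ a j i = - μ a i j)
    (hK : ∀ i j k l, P i j k l + Ω i j k l = ∑ a, μ a i j * μ a k l)
    {B : Mt m} (hB : ∀ i j, B j i = - B i j) (hBr : cj B = B)
    {T : Zc (I2 m → ℂ)} (hT : Inv T) {k M : ℕ} (hTc : T ∈ cone m k) (hkM : k + M = m) :
    0 ≤ (EL m (T * (eL (cx K) + (2 : ℂ) • qi B) ^ M)).re := by
  have hS := eL_piece hf hP hΩ hK
  have hSp := Sp_eq hf
  have hMa : ∀ b i j, Mm a (μ b) j i = - Mm a (μ b) i j := fun b i j => Mm_anti a (hμ b) i j
  have hSi : Inv (eL (cx K)) := by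
    rw [hS]
    exact (Inv.sum fun b => qi_inv (hMa b)).smul _
  have hx1 : ff false false B * ff true true B ∈ cone m 1 := by
    have h := cone_gen' (m := m) (n := 1) (fun _ => B)
    rwa [Fin.prod_univ_one, hBr] at h
  have hm1 : ∀ b, ff false false (Mm a (μ b)) * ff true true (Mm a (μ b)) ∈ cone m 1 := by
    intro b
    have h := cone_gen' (m := m) (n := 1) (fun _ => Mm a (μ b))
    rwa [Fin.prod_univ_one, cj_Mm] at h
  -- the term which is linear in the piece
  have hlin : ∀ r : ℕ, EL m (ff false false B ^ r * ff true true B ^ r * (T * eL (cx K))) =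
      ∑ b, EL m (ff false false B ^ r * ff true true B ^ r *
        (T * (ff false false (Mm a (μ b)) * ff true true (Mm a (μ b))))) -
      (r / (6 * (r + 1))) *
        (EL m (ff false false B ^ (r - 1) * ff true true B ^ (r + 1) * (T * Th a μ false)) +
        EL m (ff false false B ^ (r + 1) * ff true true B ^ (r - 1) * (T * Th a μ true))) := by
    intro r
    have h1 : EL m (ff false false B ^ r * ff true true B ^ r * (T * eL (cx K))) =
        (2 / 3) * ∑ b, EL m (ff false false B ^ r * ff true true B ^ r * (T * qi (Mm a (μ b)))) := by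
      rw [hS, mul_smul_comm, mul_smul_comm, map_smul, smul_eq_mul, Finset.mul_sum, Finset.mul_sum,
        map_sum]
    have h2 : EL m (ff false false B ^ (r - 1) * ff true true B ^ (r + 1) * (T * Th a μ false)) =
        ∑ b, EL m (ff false false B ^ (r - 1) * ff true true B ^ (r + 1) *
          (T * ff false false (Mm a (μ b)) ^ 2)) := by
      rw [Th, Finset.mul_sum, Finset.mul_sum, map_sum]
    have h3 : EL m (ff false false B ^ (r + 1) * ff true true B ^ (r - 1) * (T * Th a μ true)) =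
        ∑ b, EL m (ff false false B ^ (r + 1) * ff true true B ^ (r - 1) *
          (T * ff true true (Mm a (μ b)) ^ 2)) := by
      rw [Th, Finset.mul_sum, Finset.mul_sum, map_sum]
    rw [h1, h2, h3, ← Finset.sum_add_distrib, Finset.mul_sum, Finset.mul_sum,
      ← Finset.sum_sub_distrib]
    refine Finset.sum_congr rfl fun b _ => ?_
    rw [EL_lemQ hT (hMa b) hB r]
    have h4 : ((r : ℂ) + 1) ≠ 0 := by exact_mod_cast Nat.succ_ne_zero r
    field_simp
    ring
  have hpp : ∀ r : ℕ, k + (r + 1) = m → ∀ b, 0 ≤ (EL m (ff false false B ^ r *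
      ff true true B ^ r * (T * (ff false false (Mm a (μ b)) * ff true true (Mm a (μ b)))))).re := by
    intro r hr b
    have h1 : ff false false B ^ r * ff true true B ^ r * (T * (ff false false (Mm a (μ b)) *
        ff true true (Mm a (μ b)))) = (ff false false B * ff true true B) ^ r * T *
        (ff false false (Mm a (μ b)) * ff true true (Mm a (μ b))) := by
      rw [mul_pow]; ring
    have h2 := cone_mul (cone_mul (cone_pow hx1 r) hTc) (hm1 b)
    have h3 : r + k + 1 = m := by omega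
    rw [h3] at h2
    obtain ⟨t, ht, ht'⟩ := cone_LF h2
    rw [h1, EL_apply, ht', Complex.ofReal_re]
    exact ht
  have hqq : ∀ r : ℕ, k + r = m →
      0 ≤ (EL m (ff false false B ^ r * ff true true B ^ r * T)).re := by
    intro r hr
    have h2 := cone_mul (cone_pow hx1 r) hTc
    have h3 : r + k = m := by omega
    rw [h3, mul_pow] at h2
    obtain ⟨t, ht, ht'⟩ := cone_LF h2
    rw [EL_apply, ht', Complex.ofReal_re]
    exact ht
  have hqi : ∀ (U : Zc (I2 m → ℂ)), Inv U → ∀ j : ℕ, EL m (U * ((2 : ℂ) • qi B) ^ j) =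
      ((2 ^ j * kp 0 j : ℝ) : ℂ) * EL m (ff false false B ^ j * ff true true B ^ j * U) := by
    intro U hU j
    have h1 := EL_qi_pow hU hB j 0
    simp only [pow_zero, one_mul, zero_add] at h1
    rw [smul_pow, mul_smul_comm, map_smul, smul_eq_mul, h1]
    push_cast
    ring
  match M, hkM with
  | 0, hkM =>
    rw [pow_zero, mul_one]
    have h := hqq 0 hkM
    simpa using h
  | 1, hkM =>
    rw [pow_one, mul_add, map_add, Complex.add_re]
    refine add_nonneg ?_ ?_
    · have h1 := hlin 0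
      simp only [pow_zero, one_mul, Nat.cast_zero, zero_div, zero_mul, sub_zero] at h1
      rw [h1, Complex.re_sum]
      refine Finset.sum_nonneg fun b _ => ?_
      have h2 := hpp 0 hkM b
      simpa using h2
    · have h1 := hqi T hT 1
      rw [pow_one] at h1
      rw [h1, Complex.re_ofReal_mul]
      exact mul_nonneg (mul_nonneg (by norm_num) (kp_pos 0 1).le) (hqq 1 hkM)
  | n + 2, hkM =>
    subst hkM
    have hcube : eL (cx K) ^ 3 = 0 := by rw [hSp, Sp_cube]
    have hE : EL (k + (n + 2)) (T * (eL (cx K) + (2 : ℂ) • qi B) ^ (n + 2)) =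
        EL (k + (n + 2)) (T * ((2 : ℂ) • qi B) ^ (n + 2)) +
        ((n : ℂ) + 2) * EL (k + (n + 2)) (T * eL (cx K) * ((2 : ℂ) • qi B) ^ (n + 1)) +
        ((n + 2).choose 2 : ℂ) * EL (k + (n + 2)) (T * eL (cx K) ^ 2 * ((2 : ℂ) • qi B) ^ n) := by
      rw [cube_expand hcube n, mul_add, mul_add, map_add, map_add]
      have e1 : T * (((n : Zc (I2 (k + (n + 2)) → ℂ)) + 2) * (eL (cx K) *
          ((2 : ℂ) • qi B) ^ (n + 1))) =
          ((n : ℂ) + 2) • (T * eL (cx K) * ((2 : ℂ) • qi B) ^ (n + 1)) := by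
        simp only [Algebra.smul_def, map_add, map_natCast, map_ofNat]
        ring
      have e2 : T * (((n + 2).choose 2 : Zc (I2 (k + (n + 2)) → ℂ)) * (eL (cx K) ^ 2 *
          ((2 : ℂ) • qi B) ^ n)) =
          ((n + 2).choose 2 : ℂ) • (T * eL (cx K) ^ 2 * ((2 : ℂ) • qi B) ^ n) := by
        simp only [Algebra.smul_def, map_natCast]
        ring
      rw [e1, e2, map_smul, map_smul, smul_eq_mul, smul_eq_mul]
    rw [hE, hqi T hT (n + 2), hqi _ (hT.mul hSi) (n + 1), hqi _ (hT.mul (hSi.pow 2)) n,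
      hlin (n + 1)]
    have k1 : kp 0 (n + 1) = kp 0 n * ((2 * n + 3) / (2 * n + 2)) := by
      rw [kp_succ]
      simp
    have k2 : kp 0 (n + 2) = kp 0 n * ((2 * n + 3) / (2 * n + 2)) * ((2 * n + 5) / (2 * n + 4)) := by
      rw [kp_succ, k1]
      congr 1
      push_cast
      ring_nf
    have hch : (((n + 2).choose 2 : ℕ) : ℝ) = (n + 2) * (n + 1) / 2 := by
      rw [Nat.cast_choose_two]
      push_cast
      ring
    have hci := coef_ineq n (kp_pos 0 n)
    rw [← k2, ← k1] at hci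
    have hn : (0 : ℝ) ≤ n := Nat.cast_nonneg n
    have hpsi := cone_pos hTc hBr a hP hΩ hμ hK
      (c₀ := 2 ^ (n + 2) * kp 0 (n + 2)) (c₁ := 2 ^ (n + 1) * kp 0 (n + 1) * ((n + 1) / 6))
      (c₂ := (n + 2) * (n + 1) / 2 * (2 ^ n * kp 0 n))
      (mul_pos (by positivity) (kp_pos _ _)) (mul_nonneg (by positivity)
        (mul_nonneg (by positivity) (kp_pos _ _).le)) hci
    have hp : 0 ≤ ((n : ℝ) + 2) * (2 ^ (n + 1) * kp 0 (n + 1)) *
        (∑ b, EL (k + (n + 2)) (ff false false B ^ (n + 1) * ff true true B ^ (n + 1) *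
          (T * (ff false false (Mm a (μ b)) * ff true true (Mm a (μ b)))))).re := by
      refine mul_nonneg (mul_nonneg (by positivity) (mul_nonneg (by positivity)
        (kp_pos _ _).le)) ?_
      rw [Complex.re_sum]
      exact Finset.sum_nonneg fun b _ => hpp (n + 1) (by omega) b
    have c1 : (((n + 1 : ℕ) : ℂ) / (6 * (((n + 1 : ℕ) : ℂ) + 1))) =
        ((((n : ℝ) + 1) / (6 * (n + 2)) : ℝ) : ℂ) := by
      push_cast
      ring
    have c2 : ((n : ℂ) + 2) = (((n : ℝ) + 2 : ℝ) : ℂ) := by push_cast; rfl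
    have c3 : (((n + 2).choose 2 : ℕ) : ℂ) = (((n + 2) * (n + 1) / 2 : ℝ) : ℂ) := by
      rw [← hch]
      push_cast
      rfl
    rw [c1, c2, c3]
    refine (add_nonneg hp hpsi).trans (le_of_eq ?_)
    rw [Psi]
    simp only [mul_add, mul_sub, mul_smul_comm, map_add, map_sub, map_smul, smul_eq_mul,
      Complex.add_re, Complex.sub_re, Complex.re_ofReal_mul]
    have m1 : T * (ff false false B ^ (n + 2) * ff true true B ^ (n + 2)) =
        ff false false B ^ (n + 2) * ff true true B ^ (n + 2) * T := by ring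
    have m2 : T * (ff false false B ^ n * ff true true B ^ (n + 2) * Th a μ false) =
        ff false false B ^ (n + 1 - 1) * ff true true B ^ (n + 1 + 1) * (T * Th a μ false) := by
      rw [Nat.add_sub_cancel]; ring
    have m3 : T * (ff false false B ^ (n + 2) * ff true true B ^ n * Th a μ true) =
        ff false false B ^ (n + 1 + 1) * ff true true B ^ (n + 1 - 1) * (T * Th a μ true) := by
      rw [Nat.add_sub_cancel]; ring
    have m4 : T * (ff false false B ^ n * ff true true B ^ n * Sp a P ^ 2) =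
        ff false false B ^ n * ff true true B ^ n * (T * eL (cx K) ^ 2) := by
      rw [hSp]; ring
    rw [m1, m2, m3, m4]
    set X0 := EL (k + (n + 2)) (ff false false B ^ (n + 2) * ff true true B ^ (n + 2) * T)
    set X1 := ∑ b, EL (k + (n + 2)) (ff false false B ^ (n + 1) * ff true true B ^ (n + 1) *
          (T * (ff false false (Mm a (μ b)) * ff true true (Mm a (μ b)))))
    set X2 := EL (k + (n + 2)) (ff false false B ^ (n + 1 - 1) * ff true true B ^ (n + 1 + 1) *
      (T * Th a μ false))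
    set X3 := EL (k + (n + 2)) (ff false false B ^ (n + 1 + 1) * ff true true B ^ (n + 1 - 1) *
      (T * Th a μ true))
    set X4 := EL (k + (n + 2)) (ff false false B ^ n * ff true true B ^ n * (T * eL (cx K) ^ 2))
    field_simp
    ring

end Pool.Agent.Helper147.HM
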