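import Pool.Agent.Helper147.HM.W5
import Pool.Agent.W669.HD.FiveFin
import Pool.Agent.Y195.HF.Sharp

/-!
# The Gauss-Bonnet-Chern integrand for one piece, one skew form and a nonpositive curvature operator
-/

set_option autoImplicit false

namespace Pool.Agent.Helper147.HM

open Pool.Agent.W666.GB Pool.Agent.W669.HD Pool.Agent.Y195.HF Finset

variable {m : ℕ}

theorem gm_bound' {D P₀ K : T4 m} (hD : Adm D) (hP₀ : Adm P₀)
    {a : Fin m × Bool → Fin 5 → ℝ} {P Ω : Q5} {N : ℕ}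
    {μ : Fin N → Fin 5 → Fin 5 → ℝ} (hf : Fac5 a K P) (hP : Cur5 P) (hΩ : Alt5 Ω)
    (hμ : ∀ a i j, μ a j i = - μ a i j)
    (hK : ∀ i j k l, P i j k l + Ω i j k l = ∑ a, μ a i j * μ a k l)
    {B : Fin m × Bool → Fin m × Bool → ℝ} (hB : ∀ i j, B j i = - B i j) :
    gm (fun _ : Fin m => D) ≤ gm (fun _ : Fin m =>
      (fun i j k l => D i j k l + (P₀ i j k l + (K i j k l + scR B i j k l)) : T4 m)) := by
  have hB' : ∀ i j, cm B j i = - cm B i j := fun i j => by
    simp only [cm, hB i j, Complex.ofReal_neg]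
  have key : ∀ a b c : ℕ, a + b + c = m →
      0 ≤ LR m (eL (cx D) ^ a * (eL (cx P₀) ^ b * (eL (cx K) + eL (cx (scR B))) ^ c)) := by
    intro a' b c habc
    have hI : Inv (eL (cx D) ^ a' * eL (cx P₀) ^ b) := (hD.inv.pow a').mul (hP₀.inv.pow b)
    have hc : eL (cx D) ^ a' * eL (cx P₀) ^ b ∈ cone m (a' + b) :=
      cone_mul (cone_pow hD.mem a') (cone_pow hP₀.mem b)
    have h := piece_pos hf hP hΩ hμ hK hB' (cj_cm B) hI hc (M := c) (by omega)
    rw [EL_apply, ← LR_apply, ← eL_scR, mul_assoc] at h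
    exact h
  have hsum : eL (cx (fun i j k l => D i j k l + (P₀ i j k l + (K i j k l + scR B i j k l)) :
      T4 m)) = eL (cx D) + (eL (cx P₀) + (eL (cx K) + eL (cx (scR B)))) := by
    rw [← eL_add (cx K), ← eL_add (cx P₀), ← eL_add (cx D)]
    congr 1
    funext i j k l
    simp only [cx]
    push_cast
    rfl
  rw [gm_LR, gm_LR, hsum, add_pow, map_sum, Finset.sum_range_succ]
  have h1 : eL (cx D) ^ m * (eL (cx P₀) + (eL (cx K) + eL (cx (scR B)))) ^ (m - m) *
      ((m.choose m : ℕ) : Zc (I2 m → ℂ)) = eL (cx D) ^ m := by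
    rw [Nat.sub_self, pow_zero, Nat.choose_self, Nat.cast_one, mul_one, mul_one]
  rw [h1]
  have h2 : 0 ≤ ∑ k ∈ Finset.range m, LR m (eL (cx D) ^ k *
      (eL (cx P₀) + (eL (cx K) + eL (cx (scR B)))) ^ (m - k) *
        ((m.choose k : ℕ) : Zc (I2 m → ℂ))) := by
    refine Finset.sum_nonneg fun k hk => ?_
    rw [Finset.mem_range] at hk
    rw [add_pow, Finset.mul_sum, Finset.sum_mul, map_sum]
    refine Finset.sum_nonneg fun j hj => ?_
    rw [Finset.mem_range] at hj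
    have h3 := key k j (m - k - j) (by omega)
    have e2 : eL (cx D) ^ k * (eL (cx P₀) ^ j * (eL (cx K) + eL (cx (scR B))) ^ (m - k - j) *
        (((m - k).choose j : ℕ) : Zc (I2 m → ℂ))) * ((m.choose k : ℕ) : Zc (I2 m → ℂ)) =
        (((m - k).choose j * m.choose k : ℕ) : ℝ) • (eL (cx D) ^ k * (eL (cx P₀) ^ j *
          (eL (cx K) + eL (cx (scR B))) ^ (m - k - j))) := by
      simp only [Algebra.smul_def, map_natCast, Nat.cast_mul, map_mul]
      ring
    rw [e2, map_smul, smul_eq_mul]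
    positivity
  linarith

section final

variable {V : Type} [NormedAddCommGroup V] [InnerProductSpace ℝ V]

/-- `R` is the sum of
* `k` algebraic curvature tensors `S i`, each living on some subspace `W i`, where either
  `dim (W i) ≤ 4` and the sectional curvatures of `S i` are nonpositive, or `dim (W i) ≤ 5` and
  `S i` is strongly nonpositive;
* the negatives of the curvature tensors `skewCurv (B j)` of `l` skew forms of arbitrary rank;
* an algebraic curvature tensor whose curvature operator is at most `-δ`. -/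
def PieceSkew (k l : ℕ) (δ : ℝ) (R : V → V → V → V → ℝ) : Prop :=
  ∃ (S : Fin k → V → V → V → V → ℝ) (W : Fin k → Submodule ℝ V) (B : Fin l → V → V → ℝ)
    (R₀ : V → V → V → V → ℝ),
    (∀ i, AlgCurv (S i) ∧ LivesOn (W i) (S i) ∧
      ((Module.finrank ℝ (W i) ≤ 4 ∧ ∀ x y, S i x y x y ≤ 0) ∨
        (Module.finrank ℝ (W i) ≤ 5 ∧ Strong (S i)))) ∧
    (∀ j, SkewForm (B j)) ∧
    AlgCurv R₀ ∧ OpNonneg (negT (addT R₀ fun x y z w => δ * unitT x y z w)) ∧
    ∀ x y z w, R x y z w = ∑ i, S i x y z w - ∑ j, skewCurv (B j) x y z w + R₀ x y z w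

theorem one_one (e : OrthonormalBasis (Fin m × Bool) ℝ V) {R R₁ R₀ : V → V → V → V → ℝ}
    {B : V → V → ℝ} (W : Submodule ℝ V) (h₁ : AlgCurv R₁) (h₀ : AlgCurv R₀) (hB : SkewForm B)
    (hW : Module.finrank ℝ W ≤ 5) (hl : LivesOn W R₁) (hs : Strong R₁)
    {δ : ℝ} (hδ : 0 ≤ δ)
    (hn : OpNonneg (negT (addT R₀ fun x y z w => δ * unitT x y z w)))
    (hR : ∀ x y z w, R x y z w = R₁ x y z w - skewCurv B x y z w + R₀ x y z w) :
    roundGB m δ ≤ (-1) ^ m * gbc e R := by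
  classical
  obtain ⟨a, P, Ω, n, μ, hf, hP, hΩ, hμ, hK⟩ := Pool.Agent.W298.HD.VEC5 m V e R₁ W h₁ hW hl hs
  rw [gbc_eq]
  have hπ := Real.pi_pos
  have hc : 0 < 1 / ((8 * Real.pi) ^ m * (m.factorial : ℝ)) := by positivity
  have hr : roundGB m δ = 1 / ((8 * Real.pi) ^ m * m.factorial) *
      (2 ^ m * (δ ^ m * (2 * m).factorial)) := by
    unfold roundGB
    have : (8 * Real.pi) ^ m = 2 ^ m * (4 * Real.pi) ^ m := by
      rw [← mul_pow]; congr 1; ring
    rw [this]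
    field_simp
  rw [hr]
  refine mul_le_mul_of_nonneg_left ?_ hc.le
  have hP₀ : AlgCurv (negT (addT R₀ fun x y z w => δ * unitT x y z w)) :=
    Pool.Agent.Y195.HF.neg_curv (add_curv h₀ (unit_curv δ))
  have h1 := gm_bound' (adm_unit (m := m) hδ) (adm_cp e hP₀ hn) hf hP hΩ hμ hK
    (B := fun i j => B (e i) (e j)) (fun i j => hB.anti _ _)
  rw [unit_gm] at h1
  refine h1.trans (le_of_eq ?_)
  congr 1
  funext _ i j k l
  have h2 := cp_unit e i j k l
  simp only [cp, negT, addT, skewCurv, scR, h2, hR]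
  ring

/-- The pointwise inequality. -/
theorem piece_skew (e : OrthonormalBasis (Fin m × Bool) ℝ V) {R : V → V → V → V → ℝ}
    {δ : ℝ} (hδ : 0 ≤ δ) (h : PieceSkew 1 1 δ R) : roundGB m δ ≤ (-1) ^ m * gbc e R := by
  obtain ⟨S, W, B, R₀, hS, hB, h₀, hn, hR⟩ := h
  obtain ⟨h1, h2, h3⟩ := hS 0
  have h4 : Module.finrank ℝ (W 0) ≤ 5 ∧ Strong (S 0) := by
    rcases h3 with ⟨h3, h4⟩ | h3
    · exact ⟨h3.trans (by norm_num), Pool.Agent.W98.HD.ths m V e (S 0) (W 0) h1 h3 h2 h4⟩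
    · exact h3
  refine one_one e (W 0) h1 h₀ (hB 0) h4.1 h2 h4.2 hδ hn fun x y z w => ?_
  rw [hR]
  simp

end final

section fields

variable {M : Type} [MeasurableSpace M] (μ : MeasureTheory.Measure M) (K : CurvField m M)

theorem field_ps (h : ∀ p, PieceSkew 1 1 0 (K.R p)) : 0 ≤ (-1) ^ m * ∫ p, K.gb p ∂μ := by
  rw [← MeasureTheory.integral_const_mul]
  refine MeasureTheory.integral_nonneg fun p => ?_
  exact (roundGB_nonneg le_rfl).trans (piece_skew (K.e p) le_rfl (h p))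

theorem field_psδ [MeasureTheory.IsFiniteMeasure μ] (hi : MeasureTheory.Integrable K.gb μ)
    {δ : ℝ} (hδ : 0 ≤ δ) (h : ∀ p, PieceSkew 1 1 δ (K.R p)) :
    roundGB m δ * μ.real Set.univ ≤ (-1) ^ m * ∫ p, K.gb p ∂μ := by
  rw [← MeasureTheory.integral_const_mul]
  have h1 : roundGB m δ * μ.real Set.univ = ∫ _, roundGB m δ ∂μ := by
    rw [MeasureTheory.integral_const, smul_eq_mul, mul_comm]
  rw [h1]
  refine MeasureTheory.integral_mono (MeasureTheory.integrable_const _) (hi.const_mul _) fun p => ?_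
  exact piece_skew (K.e p) hδ (h p)

end fields

/-- In dimension six neither a second piece nor a second skew form can be admitted. -/
theorem ps_fail : ∃ R : E6 → E6 → E6 → E6 → ℝ, AlgCurv R ∧ PieceSkew 1 2 0 R ∧
    PieceSkew 2 1 0 R ∧
    ∀ e : OrthonormalBasis (Fin 3 × Bool) ℝ E6, (-1) ^ 3 * gbc e R < 0 := by
  have hcz : AlgCurv (fun _ _ _ _ : E6 => (0 : ℝ)) :=
    ⟨fun _ _ _ _ _ => by simp, fun _ _ _ _ _ => by simp, fun _ _ _ _ => by simp,
      fun _ _ _ _ => by simp, fun _ _ _ _ => by simp⟩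
  have hR : AlgCurv (addT (addT (RR 0) (RR 1)) (RR 2)) :=
    add_curv (add_curv (RR_curv 0) (RR_curv 1)) (RR_curv 2)
  have hzero : OpNonneg (negT (addT (fun _ _ _ _ : E6 => (0 : ℝ))
      fun x y z w => 0 * unitT x y z w)) := by
    intro n x y
    simp [negT, addT]
  refine ⟨addT (addT (RR 0) (RR 1)) (RR 2), hR,
    ⟨fun _ => RR 0, fun _ => WW 0, ![AA 1, AA 2], fun _ _ _ _ => 0,
      fun i => ⟨RR_curv 0, RR_lives 0, Or.inl ⟨WW_finrank 0, RR_sec 0⟩⟩, ?_, hcz, hzero, ?_⟩,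
    ⟨![RR 0, RR 1], ![WW 0, WW 1], fun _ => AA 2, fun _ _ _ _ => 0, ?_,
      fun _ => AA_skew 2, hcz, hzero, ?_⟩, ?_⟩
  · intro j
    fin_cases j
    · exact AA_skew 1
    · exact AA_skew 2
  · intro x y z w
    simp only [addT, RR_eq, Fin.sum_univ_one, Fin.sum_univ_two, Matrix.cons_val_zero,
      Matrix.cons_val_one]
    ring
  · intro i
    fin_cases i
    · exact ⟨RR_curv 0, RR_lives 0, Or.inl ⟨WW_finrank 0, RR_sec 0⟩⟩
    · exact ⟨RR_curv 1, RR_lives 1, Or.inl ⟨WW_finrank 1, RR_sec 1⟩⟩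
  · intro x y z w
    simp only [addT, RR_eq, Fin.sum_univ_one, Fin.sum_univ_two, Matrix.cons_val_zero,
      Matrix.cons_val_one]
    ring
  · intro e
    set e₀ : OrthonormalBasis (Fin 3 × Bool) ℝ E6 := EuclideanSpace.basisFun _ ℝ with he₀
    rw [Pool.Agent.W688.HD.bas 3 E6 e e₀ _ hR, gbc_eq]
    have hπ := Real.pi_pos
    have hc : 0 < 1 / ((8 * Real.pi) ^ 3 * (Nat.factorial 3 : ℝ)) := by positivity
    refine mul_neg_of_pos_of_neg hc ?_
    have hcp : (fun _ : Fin 3 => cp e₀ (negT (addT (addT (RR 0) (RR 1)) (RR 2)))) =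
        fun _ : Fin 3 => (fun i j k l => pr 0 i j k l + pr 1 i j k l + pr 2 i j k l : T4 3) := by
      funext _ i j k l
      simp only [cp, negT, addT, RR, he₀, EuclideanSpace.basisFun_apply, AA_single, pr]
      ring
    rw [hcp]
    exact Pool.Agent.W654.HD.main

end Pool.Agent.Helper147.HM
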