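import Pool.Agent.Helper147.HM.W6

/-!
# The numbers of pieces and skew forms for which the sign holds
-/

set_option autoImplicit false

namespace Pool.Agent.Helper147.HM

open Pool.Agent.W666.GB Pool.Agent.W669.HD Pool.Agent.Y195.HF Finset

section mono

variable {V : Type} [NormedAddCommGroup V] [InnerProductSpace ℝ V]

theorem zero_curv : AlgCurv (fun _ _ _ _ : V => (0 : ℝ)) :=
  ⟨fun _ _ _ _ _ => by simp, fun _ _ _ _ _ => by simp, fun _ _ _ _ => by simp,
    fun _ _ _ _ => by simp, fun _ _ _ _ => by simp⟩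

theorem zero_skew : SkewForm (fun _ _ : V => (0 : ℝ)) :=
  ⟨fun _ _ _ => by simp, fun _ _ _ => by simp, fun _ _ => by simp⟩

theorem PieceSkew.succ_left {k l : ℕ} {δ : ℝ} {R : V → V → V → V → ℝ} (h : PieceSkew k l δ R) :
    PieceSkew (k + 1) l δ R := by
  obtain ⟨S, W, B, R₀, hS, hB, h₀, hn, hR⟩ := h
  refine ⟨Fin.cons (fun _ _ _ _ => 0) S, Fin.cons ⊥ W, B, R₀, ?_, hB, h₀, hn, ?_⟩
  · intro i
    refine Fin.cases ?_ (fun i => ?_) i
    · refine ⟨zero_curv, ?_, Or.inl ⟨?_, ?_⟩⟩
      · intro x _ y z w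
        rfl
      · rw [Fin.cons_zero, finrank_bot]
        norm_num
      · intro x y
        exact le_refl (0 : ℝ)
    · simp only [Fin.cons_succ]
      exact hS i
  · intro x y z w
    rw [hR, Fin.sum_univ_succ]
    simp only [Fin.cons_zero, Fin.cons_succ, zero_add]

theorem PieceSkew.succ_right {k l : ℕ} {δ : ℝ} {R : V → V → V → V → ℝ} (h : PieceSkew k l δ R) :
    PieceSkew k (l + 1) δ R := by
  obtain ⟨S, W, B, R₀, hS, hB, h₀, hn, hR⟩ := h
  refine ⟨S, W, Fin.cons (fun _ _ => 0) B, R₀, hS, ?_, h₀, hn, ?_⟩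
  · intro j
    refine Fin.cases ?_ (fun j => ?_) j
    · exact zero_skew
    · simp only [Fin.cons_succ]
      exact hB j
  · intro x y z w
    rw [hR, Fin.sum_univ_succ]
    simp only [Fin.cons_zero, Fin.cons_succ, skewCurv]
    ring

theorem PieceSkew.two_pieces {δ : ℝ} {R : V → V → V → V → ℝ} (h : PieceSkew 2 0 δ R) :
    PiecesD 5 2 δ R := by
  obtain ⟨S, W, B, R₀, hS, hB, h₀, hn, hR⟩ := h
  refine ⟨S, W, R₀, hS, h₀, hn, fun x y z w => ?_⟩
  rw [hR]
  simp

theorem PieceSkew.two_skew {δ : ℝ} {R : V → V → V → V → ℝ} (h : PieceSkew 0 2 δ R) :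
    AlgCurv R ∧ TwoSkew δ R := by
  obtain ⟨S, W, B, R₀, hS, hB, h₀, hn, hR⟩ := h
  have hR' : R = addT (addT R₀ (negT (skewCurv (B 0)))) (negT (skewCurv (B 1))) := by
    funext x y z w
    rw [hR]
    simp only [addT, negT, Fin.sum_univ_two]
    simp
    ring
  refine ⟨?_, B 0, B 1, hB 0, hB 1, ?_⟩
  · rw [hR']
    exact add_curv (add_curv h₀ (Pool.Agent.Y195.HF.neg_curv (hB 0).curv))
      (Pool.Agent.Y195.HF.neg_curv (hB 1).curv)
  · have e1 : negT (addT (addT (addT R fun x y z w => δ * unitT x y z w) (skewCurv (B 0)))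
        (skewCurv (B 1))) = negT (addT R₀ fun x y z w => δ * unitT x y z w) := by
      rw [hR']
      funext x y z w
      simp only [addT, negT]
      ring
    rw [e1]
    exact hn

end mono

/-- the summands of the example -/
noncomputable def exf (x y z w : E6) (t : ℕ) : ℝ := if h : t < 3 then RR ⟨t, h⟩ x y z w else 0

theorem exf_sum (x y z w : E6) (k l : ℕ) (hkl : 3 ≤ k + l) :
    ∑ i : Fin k, exf x y z w i + ∑ j : Fin l, exf x y z w (k + j) =
      addT (addT (RR 0) (RR 1)) (RR 2) x y z w := by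
  have h1 : ∑ t : Fin (k + l), exf x y z w t =
      ∑ i : Fin k, exf x y z w i + ∑ j : Fin l, exf x y z w (k + j) := by
    rw [Fin.sum_univ_add]
    simp
  rw [← h1, Fin.sum_univ_eq_sum_range (fun t => exf x y z w t)]
  have h2 : ∑ t ∈ Finset.range (k + l), exf x y z w t = ∑ t ∈ Finset.range 3, exf x y z w t := by
    symm
    refine Finset.sum_subset (Finset.range_mono hkl) fun t _ ht => ?_
    have h3 : ¬ t < 3 := by simpa using ht
    simp [exf, h3]
  rw [h2, Finset.sum_range_succ, Finset.sum_range_succ, Finset.sum_range_succ,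
    Finset.sum_range_zero]
  simp [exf, addT]

theorem ex_piece (t : ℕ) : ∃ (S : E6 → E6 → E6 → E6 → ℝ) (W : Submodule ℝ E6), AlgCurv S ∧
    LivesOn W S ∧ Module.finrank ℝ W ≤ 4 ∧ (∀ x y, S x y x y ≤ 0) ∧
      ∀ x y z w, S x y z w = exf x y z w t := by
  by_cases h : t < 3
  · exact ⟨RR ⟨t, h⟩, WW ⟨t, h⟩, RR_curv _, RR_lives _, WW_finrank _, RR_sec _,
      fun x y z w => by rw [exf, dif_pos h]⟩
  · refine ⟨fun _ _ _ _ => 0, ⊥, zero_curv, fun _ _ _ _ _ => rfl, ?_, fun _ _ => le_refl _,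
      fun x y z w => by rw [exf, dif_neg h]⟩
    rw [finrank_bot]
    norm_num

theorem ex_form (t : ℕ) : ∃ B : E6 → E6 → ℝ, SkewForm B ∧
    ∀ x y z w, skewCurv B x y z w = - exf x y z w t := by
  by_cases h : t < 3
  · exact ⟨AA ⟨t, h⟩, AA_skew _, fun x y z w => by rw [exf, dif_pos h, RR_eq, neg_neg]⟩
  · exact ⟨fun _ _ => 0, zero_skew, fun x y z w => by
      rw [exf, dif_neg h, skewCurv]; ring⟩

theorem ex_mem (k l : ℕ) (hkl : 3 ≤ k + l) :
    PieceSkew k l 0 (addT (addT (RR 0) (RR 1)) (RR 2)) := by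
  have hzero : OpNonneg (negT (addT (fun _ _ _ _ : E6 => (0 : ℝ))
      fun x y z w => 0 * unitT x y z w)) := by
    intro n x y
    simp [negT, addT]
  choose S W h1 h2 h3 h4 h5 using fun i : Fin k => ex_piece i
  choose B b1 b2 using fun j : Fin l => ex_form (k + j)
  refine ⟨S, W, B, fun _ _ _ _ => 0, fun i => ⟨h1 i, h2 i, Or.inl ⟨h3 i, h4 i⟩⟩, b1,
    zero_curv, hzero, fun x y z w => ?_⟩
  rw [← exf_sum x y z w k l hkl, add_zero, sub_eq_add_neg, ← Finset.sum_neg_distrib]
  congr 1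
  · exact Finset.sum_congr rfl fun i _ => (h5 i x y z w).symm
  · refine Finset.sum_congr rfl fun j _ => ?_
    rw [b2, neg_neg]

theorem ex_neg (e : OrthonormalBasis (Fin 3 × Bool) ℝ E6) :
    (-1) ^ 3 * gbc e (addT (addT (RR 0) (RR 1)) (RR 2)) < 0 := by
  have hR : AlgCurv (addT (addT (RR 0) (RR 1)) (RR 2)) :=
    add_curv (add_curv (RR_curv 0) (RR_curv 1)) (RR_curv 2)
  set e₀ : OrthonormalBasis (Fin 3 × Bool) ℝ E6 := EuclideanSpace.basisFun _ ℝ with he₀
  rw [Pool.Agent.W688.HD.bas 3 E6 e e₀ _ hR, gbc_eq]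
  have hπ := Real.pi_pos
  have hc : 0 < 1 / ((8 * Real.pi) ^ 3 * (Nat.factorial 3 : ℝ)) := by positivity
  refine mul_neg_of_pos_of_neg hc ?_
  have hcp : (fun _ : Fin 3 => cp e₀ (negT (addT (addT (RR 0) (RR 1)) (RR 2)))) =
      fun _ : Fin 3 => (fun i j k l => pr 0 i j k l + pr 1 i j k l + pr 2 i j k l : T4 3) := by
    funext _ i j k l
    simp only [cp, negT, addT, RR, he₀, EuclideanSpace.basisFun_apply, AA_single, pr]
    ring
  rw [hcp]
  exact Pool.Agent.W654.HD.main

/-- For given numbers of pieces and skew forms, the inequality holds in all even dimensions if and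
only if there are at most two of them altogether. -/
theorem ps_iff (k l : ℕ) :
    (∀ (m : ℕ) (V : Type) [NormedAddCommGroup V] [InnerProductSpace ℝ V]
      (e : OrthonormalBasis (Fin m × Bool) ℝ V) (R : V → V → V → V → ℝ) (δ : ℝ),
      0 ≤ δ → PieceSkew k l δ R → roundGB m δ ≤ (-1) ^ m * gbc e R) ↔ k + l ≤ 2 := by
  constructor
  · intro h
    by_contra hkl
    have h1 := h 3 E6 (EuclideanSpace.basisFun _ ℝ) _ 0 le_rfl (ex_mem k l (by omega))
    have h2 := ex_neg (EuclideanSpace.basisFun (Fin 3 × Bool) ℝ)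
    have h3 := roundGB_nonneg (m := 3) (le_refl (0 : ℝ))
    linarith
  · intro hkl m V _ _ e R δ hδ hR
    rcases Nat.lt_or_ge k 2 with hk | hk
    · rcases Nat.lt_or_ge l 2 with hl | hl
      · have h11 : PieceSkew 1 1 δ R := by
          interval_cases k <;> interval_cases l
          · exact hR.succ_left.succ_right
          · exact hR.succ_left
          · exact hR.succ_right
          · exact hR
        exact piece_skew e hδ h11
      · have hl2 : l = 2 := by omega
        have hk0 : k = 0 := by omega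
        subst hl2
        subst hk0
        obtain ⟨h1, h2⟩ := hR.two_skew
        exact Pool.Agent.Y195.HF.two_skew e h1 hδ h2
    · have hk2 : k = 2 := by omega
      have hl0 : l = 0 := by omega
      subst hk2
      subst hl0
      exact five_two e hδ hR.two_pieces

end Pool.Agent.Helper147.HM
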